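import Pool.Agent.Run7.h390.Stage

set_option autoImplicit false
set_option linter.unusedSectionVars false
set_option linter.unnecessarySimpa false

namespace Run7.h390

open Finset Classical

noncomputable section

variable {V : Type*} [Fintype V] [DecidableEq V]

namespace Ctx

variable (K : Ctx V)

theorem mul_biUnion {ι : Type*} (T : Finset ι) (F : ι → Finset V) {k : ℕ}
    (h : ∀ i ∈ T, K.E * (F i).card ≤ k * Fintype.card V) :
    K.E * (T.biUnion F).card ≤ (T.card * k) * Fintype.card V := by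
  calc K.E * (T.biUnion F).card ≤ K.E * ∑ i ∈ T, (F i).card :=
        Nat.mul_le_mul_left _ card_biUnion_le
    _ = ∑ i ∈ T, K.E * (F i).card := by rw [mul_sum]
    _ ≤ ∑ i ∈ T, k * Fintype.card V := sum_le_sum h
    _ = _ := by rw [sum_const, smul_eq_mul]; ring

theorem dd_comm (s t : V) : K.dd s t = K.dd t s := dh_comm K.conn_univ s t

theorem choose_points {ι : Type*} [Fintype ι] [DecidableEq ι] (Bd : Finset V) (k : ℕ)
    (hBd : K.E * Bd.card ≤ k * Fintype.card V) (hE : k + Fintype.card ι < K.E) (T : Finset ι) :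
    ∃ a : ι → V, (∀ e ∈ T, a e ∉ Bd) ∧
      ∀ e ∈ T, ∀ e' ∈ T, e ≠ e' → 30 * K.d ≤ K.dd (a e) (a e') := by
  induction T using Finset.induction_on with
  | empty =>
    obtain ⟨v, _⟩ := K.conn_univ.1
    exact ⟨fun _ => v, by simp, by simp⟩
  | insert e0 T he0 ih =>
    obtain ⟨a, ha1, ha2⟩ := ih
    have hfar := K.mul_biUnion T (fun e => univ.filter (fun v => K.dd v (a e) < 30 * K.d))
      (k := 1) (fun e _ => by
        have := K.far (a e)
        rw [one_mul]
        exact this)
    have hTc : T.card ≤ Fintype.card ι := card_le_univ T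
    obtain ⟨v, hv⟩ := K.miss (K.mul_union hBd hfar) (by omega)
    rw [mem_union, not_or] at hv
    have hv2 : ∀ e ∈ T, 30 * K.d ≤ K.dd v (a e) := by
      intro e he
      by_contra hlt
      apply hv.2
      rw [mem_biUnion]
      exact ⟨e, he, mem_filter.2 ⟨mem_univ _, by omega⟩⟩
    have hne : ∀ e ∈ T, e ≠ e0 := fun e he h => he0 (h ▸ he)
    refine ⟨Function.update a e0 v, ?_, ?_⟩
    · intro e he
      rcases mem_insert.1 he with h | h
      · rw [h, Function.update_self]
        exact hv.1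
      · rw [Function.update_of_ne (hne e h)]
        exact ha1 e h
    · intro e he e' he' hee'
      rcases mem_insert.1 he with h | h
      · rcases mem_insert.1 he' with h' | h'
        · exact absurd (h.trans h'.symm) hee'
        · rw [h, Function.update_self, Function.update_of_ne (hne e' h')]
          exact hv2 e' h'
      · rcases mem_insert.1 he' with h' | h'
        · rw [h', Function.update_self, Function.update_of_ne (hne e h), K.dd_comm]
          exact hv2 e h
        · rw [Function.update_of_ne (hne e h), Function.update_of_ne (hne e' h')]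
          exact ha2 e h e' h' hee'

theorem contra {h : ℕ} (H : SimpleGraph (Fin h)) (hfree : HFree H K.G) (hr : h + 2 ≤ K.r)
    (hq : K.qb h ≤ K.D) (hE : 5 + 2 * h + h * h ≤ K.E) : False := by
  obtain ⟨s, R, hinv, hrel⟩ := K.stages h hr hq (by omega)
  have hdpos := K.hd
  -- monotonicity
  have hLL1 : ∀ i, i < h → (s (i+1)).L ⊆ (s i).L := fun i hi => (hrel i hi).2.2.1
  have hAA1 : ∀ i, i < h → (s (i+1)).A ⊆ (s i).A := fun i hi => (hrel i hi).2.2.2.1
  have hLL : ∀ i j, i ≤ j → j ≤ h → (s j).L ⊆ (s i).L := by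
    intro i j hij
    induction hij with
    | refl => intro _; exact Finset.Subset.refl _
    | @step m _ ih =>
      intro hm
      exact (hLL1 m (by omega)).trans (ih (by omega))
  have hAA : ∀ i j, i ≤ j → j ≤ h → (s j).A ⊆ (s i).A := by
    intro i j hij
    induction hij with
    | refl => intro _; exact Finset.Subset.refl _
    | @step m _ ih =>
      intro hm
      exact (hAA1 m (by omega)).trans (ih (by omega))
  have hAL : ∀ i, i ≤ h → (s i).A ⊆ (s i).L := fun i hi =>
    big_mono K.hw (hinv i hi).bigL (hinv i hi).bigA (hinv i hi).sub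
  have hconnL : ∀ i, i ≤ h → Conn K.G (s i).L := fun i hi => (hinv i hi).bigL.1
  have hlight : ∀ i, i ≤ h → ∀ v ∈ (s i).L, K.Λ v ≤ K.d := fun i hi => (hinv i hi).light
  have hRconn : ∀ i, i < h → Conn K.G (R i) := fun i hi => (hrel i hi).1
  have hRA : ∀ i, i < h → R i ⊆ (s i).A := fun i hi => (hrel i hi).2.1
  have hRL : ∀ i, i < h → R i ⊆ (s i).L := fun i hi => (hRA i hi).trans (hAL i hi.le)
  have hRmeet : ∀ i, i < h → ∃ r ∈ (s i).L, r ∈ R i := by
    intro i hi
    obtain ⟨x, hx⟩ := (hRconn i hi).1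
    exact ⟨x, hRL i hi hx, hx⟩
  set f : ℕ → V → ℕ := fun i => ds K.G K.Λ (s i).L (R i) with hf
  have hfR : ∀ i, i < h → ∀ x ∈ R i, f i x ≤ K.d := by
    intro i hi x hx
    have h1 : f i x ≤ K.Λ x := ds_of_mem (hRL i hi hx) hx
    have h2 := hlight i hi.le x (hRL i hi hx)
    omega
  have hfnear : ∀ i, i < h → ∀ x ∈ R i, ∀ y ∈ (s i).L, (x = y ∨ K.G.Adj x y) →
      f i y ≤ 2 * K.d := by
    intro i hi x hx y hy hxy
    have h1 := hfR i hi x hx
    rcases hxy with h' | h'
    · subst h'
      omega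
    · have h2 : f i y ≤ f i x + K.Λ y :=
        ds_lip (hconnL i hi.le) (hRmeet i hi) hy (hRL i hi hx) h'.symm
      have h3 := hlight i hi.le y hy
      omega
  have hfL : ∀ i, i < h → ∀ v ∈ (s (i+1)).L, 2 * K.d < f i v := fun i hi =>
    (hrel i hi).2.2.2.2.2.2.1
  have hfA : ∀ i, i < h → ∀ v ∈ (s (i+1)).A, 10 * K.d < f i v := fun i hi =>
    (hrel i hi).2.2.2.2.2.2.2.1
  have hfex : ∀ i, i < h → ∀ x ∈ (s (i+1)).L, ∀ y ∈ (s i).L, K.G.Adj x y →
      y ∉ (s (i+1)).L → f i y < 4 * K.d := fun i hi => (hrel i hi).2.2.2.2.2.2.2.2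
  -- the points
  set bd : ℕ → Finset V := fun i => univ.filter (fun v => ¬ (v ∈ (s i).L ∧ 11 * K.d < f i v ∧
    f i v < 14 * K.d)) with hbd
  have hbdc : ∀ i ∈ range h, K.E * (bd i).card ≤ 2 * Fintype.card V := by
    intro i hi
    exact (hrel i (mem_range.1 hi)).2.2.2.2.2.1
  have hLhc := (hinv h le_rfl).mostL
  rw [← one_mul (Fintype.card V)] at hLhc
  have hBd := K.mul_union hLhc (K.mul_biUnion (range h) bd hbdc)
  rw [card_range] at hBd
  obtain ⟨a, ha1, ha2⟩ := K.choose_points (ι := Fin h × Fin h) _ _ hBd (by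
    rw [Fintype.card_prod, Fintype.card_fin]
    omega) univ
  have haL : ∀ e i, i ≤ h → a e ∈ (s i).L := by
    intro e i hi
    have h1 := ha1 e (mem_univ _)
    rw [mem_union, not_or] at h1
    have h2 : a e ∈ (s h).L := by
      by_contra hcon
      exact h1.1 (by simp [hcon])
    exact hLL i h hi le_rfl h2
  have haf : ∀ e i, i < h → 11 * K.d < f i (a e) ∧ f i (a e) < 14 * K.d := by
    intro e i hi
    have h1 := ha1 e (mem_univ _)
    rw [mem_union, not_or, mem_biUnion] at h1
    by_contra hcon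
    apply h1.2
    refine ⟨i, mem_range.2 hi, ?_⟩
    rw [hbd, mem_filter]
    exact ⟨mem_univ _, fun hh => hcon hh.2⟩
  -- the links
  have hlink : ∀ (i : Fin h) (e : Fin h × Fin h), ∃ A : Finset V, A ⊆ (s i).L ∧ Conn K.G A ∧
      a e ∈ A ∧ (∃ r ∈ A, r ∈ R i) ∧ ∑ x ∈ A, K.Λ x ≤ f i (a e) ∧
      ∀ u ∈ A, ∃ A' : Finset V, A' ⊆ A ∧ Conn K.G A' ∧ a e ∈ A' ∧ u ∈ A' ∧
        ∑ x ∈ A', K.Λ x + f i u ≤ f i (a e) + K.Λ u := by
    intro i e
    exact link K.hΛ (hconnL i i.2.le) (hRmeet i i.2) _ (a e) (haL e i i.2.le) le_rfl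
  choose Lk hLkL hLkC hLka hLkR hLks hLku using hlink
  -- links avoid the other hubs
  have hprivate : ∀ (i j : Fin h) (e : Fin h × Fin h), i ≠ j → NT K.G (Lk i e) (R j) := by
    intro i j e hij u hu y hy
    by_contra hcon
    have hxy : u = y ∨ K.G.Adj u y := by
      by_contra h'
      rw [not_or] at h'
      exact hcon h'
    have huL := hLkL i e hu
    rcases lt_or_gt_of_ne hij with hlt | hgt
    · -- i < j
      have hij' : (i : ℕ) < j := hlt
      have hyA : y ∈ (s (i+1)).A := hAA (i+1) j (by omega) j.2.le (hRA j j.2 hy)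
      have hyLi : y ∈ (s i).L := hAL i i.2.le (hAA i j hij'.le j.2.le (hRA j j.2 hy))
      have hyLj : y ∈ (s j).L := hRL j j.2 hy
      have h1 : 10 * K.d < f i y := hfA i i.2 y hyA
      have h2 : f i y ≤ f i u + K.d := by
        rcases hxy with h' | h'
        · rw [h']; omega
        · have h3 : f i y ≤ f i u + K.Λ y :=
            ds_lip (hconnL i i.2.le) (hRmeet i i.2) hyLi huL h'.symm
          have h4 := hlight i i.2.le y hyLi
          omega
      obtain ⟨A', hA'A, hA', haA', huA', hsum⟩ := hLku i e u hu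
      have h3 := (haf e i i.2).2
      have h4 := hlight i i.2.le u huL
      have h5 : ∑ x ∈ A', K.Λ x < 6 * K.d := by omega
      have hA'L : ∀ m, (i : ℕ) ≤ m → m ≤ j → A' ⊆ (s m).L := by
        intro m him
        induction him with
        | refl => intro _; exact hA'A.trans (hLkL i e)
        | @step m him ih =>
          intro hmj
          have hmh : m < h := by have := j.2; omega
          have hsub := ih (by omega)
          by_contra hnot
          rw [not_subset] at hnot
          obtain ⟨z, hz, hzL⟩ := hnot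
          obtain ⟨x, hxA', hxL, y', hy'A', hy'L, hxy'⟩ := hA'.exit (C := (s (m+1)).L)
            ⟨a e, haA', haL e (m+1) (by omega)⟩ ⟨z, hz, hzL⟩
          have g1 := hfex m hmh x hxL y' (hsub hy'A') hxy' hy'L
          have g2 : f m (a e) ≤ f m y' + ∑ x ∈ A', K.Λ x :=
            ds_lip_conn (hconnL m hmh.le) (hRmeet m hmh) hsub hA' haA' hy'A'
          have g3 := (haf e m hmh).1
          omega
      have hA'Lj := hA'L j hij'.le le_rfl
      have huLj := hA'Lj huA'
      have g1 := hfnear j j.2 y hy u huLj (hxy.imp Eq.symm (fun h' => h'.symm))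
      have g2 : f j (a e) ≤ f j u + ∑ x ∈ A', K.Λ x :=
        ds_lip_conn (hconnL j j.2.le) (hRmeet j j.2) hA'Lj hA' haA' huA'
      have g3 := (haf e j j.2).1
      omega
    · -- j < i
      have hji' : (j : ℕ) < i := hgt
      have huLj1 : u ∈ (s (j+1)).L := hLL (j+1) i (by omega) i.2.le huL
      have huLj : u ∈ (s j).L := hLL j i hji'.le i.2.le huL
      have g1 := hfL j j.2 u huLj1
      have g2 := hfnear j j.2 y hy u huLj (hxy.imp Eq.symm (fun h' => h'.symm))
      omega
  have hapart : ∀ (i j : Fin h) (e e' : Fin h × Fin h), e ≠ e' → NT K.G (Lk i e) (Lk j e') := by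
    intro i j e e' hee' u hu y hy
    by_contra hcon
    have hxy : u = y ∨ K.G.Adj u y := by
      by_contra h'
      rw [not_or] at h'
      exact hcon h'
    have hC := (hLkC i e).union (hLkC j e') ⟨u, hu, y, hy, hxy⟩
    have h1 : K.dd (a e) (a e') ≤ ∑ x ∈ Lk i e ∪ Lk j e', K.Λ x :=
      dh_le hC (mem_union_left _ (hLka i e)) (mem_union_right _ (hLka j e'))
    have h2 := sum_union_le' K.Λ (Lk i e) (Lk j e')
    have h3 := hLks i e
    have h4 := hLks j e'
    have h5 := (haf e i i.2).2
    have h6 := (haf e' j j.2).2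
    have h7 := ha2 e (mem_univ _) e' (mem_univ _) hee'
    omega
  have nt_union : ∀ A B D : Finset V, NT K.G A D → NT K.G B D → NT K.G (A ∪ B) D := by
    intro A B D h1 h2 x hx y hy
    rcases mem_union.1 hx with h' | h'
    · exact h1 x h' y hy
    · exact h2 x h' y hy
  apply model_lemma H K.G (fun i => R i) (fun i j => Lk i (i, j) ∪ Lk j (i, j)) _ _ _ _ _ _ _ hfree
  · intro i
    exact hRconn i i.2
  · have key : ∀ i j : Fin h, i < j → NT K.G (R i) (R j) := by
      intro i j hlt x hx y hy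
      by_contra hcon
      have hxy : x = y ∨ K.G.Adj x y := by
        by_contra h'
        rw [not_or] at h'
        exact hcon h'
      have hij' : (i : ℕ) < j := hlt
      have hyA : y ∈ (s (i+1)).A := hAA (i+1) j (by omega) j.2.le (hRA j j.2 hy)
      have hyLi : y ∈ (s i).L := hAL i i.2.le (hAA i j hij'.le j.2.le (hRA j j.2 hy))
      have h1 := hfA i i.2 y hyA
      have h2 := hfnear i i.2 x hx y hyLi hxy
      omega
    intro i j hij
    rcases lt_or_gt_of_ne hij with hlt | hgt
    · exact key i j hlt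
    · exact (key j i hgt).symm
  · intro i j _
    exact (hLkC i (i, j)).union_of_mem (hLkC j (i, j)) (hLka i (i, j)) (hLka j (i, j))
  · intro i j _
    obtain ⟨r, hr1, hr2⟩ := hLkR i (i, j)
    exact ⟨r, mem_union_left _ hr1, r, hr2, Or.inl rfl⟩
  · intro i j _
    obtain ⟨r, hr1, hr2⟩ := hLkR j (i, j)
    exact ⟨r, mem_union_right _ hr1, r, hr2, Or.inl rfl⟩
  · intro i j k _ hki hkj
    exact nt_union _ _ _ (hprivate i k (i, j) hki.symm) (hprivate j k (i, j) hkj.symm)
  · intro i j k l _ _ hne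
    have he : ((i, j) : Fin h × Fin h) ≠ (k, l) := by
      intro h'
      rw [Prod.mk.injEq] at h'
      rcases hne with h1 | h1
      · exact h1 h'.1
      · exact h1 h'.2
    have h1 : NT K.G (Lk i (i, j) ∪ Lk j (i, j)) (Lk k (k, l)) :=
      nt_union _ _ _ (hapart i k _ _ he) (hapart j k _ _ he)
    have h2 : NT K.G (Lk i (i, j) ∪ Lk j (i, j)) (Lk l (k, l)) :=
      nt_union _ _ _ (hapart i l _ _ he) (hapart j l _ _ he)
    exact (nt_union _ _ _ h1.symm h2.symm).symm

end Ctx

end

end Run7.h390
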