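import Mathlib

set_option autoImplicit false
set_option linter.unusedSectionVars false
set_option linter.unnecessarySimpa false

namespace Run7.h390

open Finset Classical

noncomputable section

variable {V : Type*} [Fintype V] [DecidableEq V]

/-- Connected finite vertex sets: nonempty, and no proper nonempty subset closed under adjacency. -/
def Conn (G : SimpleGraph V) (A : Finset V) : Prop :=
  A.Nonempty ∧ ∀ B : Finset V, B ⊆ A → B.Nonempty →
    (∀ x ∈ B, ∀ y ∈ A, G.Adj x y → y ∈ B) → B = A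

/-- The two sets do not touch. -/
def NT (G : SimpleGraph V) (A B : Finset V) : Prop :=
  ∀ x ∈ A, ∀ y ∈ B, x ≠ y ∧ ¬ G.Adj x y

theorem NT.symm {G : SimpleGraph V} {A B : Finset V} (h : NT G A B) : NT G B A := by
  intro x hx y hy
  have := h y hy x hx
  exact ⟨fun e => this.1 e.symm, fun e => this.2 e.symm⟩

theorem conn_singleton (G : SimpleGraph V) (v : V) : Conn G {v} := by
  refine ⟨singleton_nonempty v, ?_⟩
  intro B hB hne _
  rcases Finset.subset_singleton_iff.1 hB with h | h
  · exact absurd h hne.ne_empty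
  · exact h

theorem Conn.subset_of {G : SimpleGraph V} {A C : Finset V} (hA : Conn G A)
    (hmeet : ∃ x ∈ A, x ∈ C) (hcl : ∀ x ∈ A, x ∈ C → ∀ y ∈ A, G.Adj x y → y ∈ C) : A ⊆ C := by
  have h := hA.2 (A.filter (fun x => x ∈ C)) (filter_subset _ _)
    (by obtain ⟨x, hx, hxC⟩ := hmeet; exact ⟨x, by simp [hx, hxC]⟩)
    (by
      intro x hx y hy hxy
      rw [mem_filter] at hx ⊢
      exact ⟨hy, hcl x hx.1 hx.2 y hy hxy⟩)
  intro x hx
  rw [← h] at hx
  exact (mem_filter.1 hx).2

theorem Conn.exit {G : SimpleGraph V} {A C : Finset V} (hA : Conn G A)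
    (hmeet : ∃ x ∈ A, x ∈ C) (hout : ∃ y ∈ A, y ∉ C) :
    ∃ x ∈ A, x ∈ C ∧ ∃ y ∈ A, y ∉ C ∧ G.Adj x y := by
  by_contra hcon
  push Not at hcon
  have : A ⊆ C := hA.subset_of hmeet (by
    intro x hx hxC y hy hxy
    by_contra hyC
    exact hcon x hx hxC y hy hyC hxy)
  obtain ⟨y, hy, hyC⟩ := hout
  exact hyC (this hy)

theorem Conn.of_forall {G : SimpleGraph V} {A : Finset V} (hne : A.Nonempty)
    (h : ∀ C : Finset V, (∃ x ∈ A, x ∈ C) → (∀ x ∈ A, x ∈ C → ∀ y ∈ A, G.Adj x y → y ∈ C) → A ⊆ C) :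
    Conn G A := by
  refine ⟨hne, ?_⟩
  intro B hB hBne hcl
  refine Finset.Subset.antisymm hB ?_
  apply h
  · obtain ⟨x, hx⟩ := hBne
    exact ⟨x, hB hx, hx⟩
  · intro x _ hxB y hy hxy
    exact hcl x hxB y hy hxy

theorem Conn.union {G : SimpleGraph V} {A B : Finset V} (hA : Conn G A) (hB : Conn G B)
    (ht : ∃ x ∈ A, ∃ y ∈ B, x = y ∨ G.Adj x y) : Conn G (A ∪ B) := by
  obtain ⟨x, hx, y, hy, hxy⟩ := ht
  apply Conn.of_forall
  · exact ⟨x, mem_union_left _ hx⟩
  · intro C hm hcl
    have hAC : (∃ z ∈ A, z ∈ C) → A ⊆ C := fun hz =>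
      hA.subset_of hz (fun u hu huC v hv huv =>
        hcl u (mem_union_left _ hu) huC v (mem_union_left _ hv) huv)
    have hBC : (∃ z ∈ B, z ∈ C) → B ⊆ C := fun hz =>
      hB.subset_of hz (fun u hu huC v hv huv =>
        hcl u (mem_union_right _ hu) huC v (mem_union_right _ hv) huv)
    have hxy' : x ∈ C ↔ y ∈ C := by
      rcases hxy with h | h
      · rw [h]
      · constructor
        · intro hxC
          exact hcl x (mem_union_left _ hx) hxC y (mem_union_right _ hy) h
        · intro hyC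
          exact hcl y (mem_union_right _ hy) hyC x (mem_union_left _ hx) h.symm
    obtain ⟨z, hz, hzC⟩ := hm
    rcases mem_union.1 hz with hz | hz
    · have h1 := hAC ⟨z, hz, hzC⟩
      have h2 := hBC ⟨y, hy, hxy'.1 (h1 hx)⟩
      exact union_subset h1 h2
    · have h2 := hBC ⟨z, hz, hzC⟩
      have h1 := hAC ⟨x, hx, hxy'.2 (h2 hy)⟩
      exact union_subset h1 h2

theorem Conn.union_of_mem {G : SimpleGraph V} {A B : Finset V} {v : V} (hA : Conn G A)
    (hB : Conn G B) (h1 : v ∈ A) (h2 : v ∈ B) : Conn G (A ∪ B) :=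
  hA.union hB ⟨v, h1, v, h2, Or.inl rfl⟩

theorem Conn.insert {G : SimpleGraph V} {A : Finset V} {v x : V} (hA : Conn G A)
    (hx : x ∈ A) (h : G.Adj v x) : Conn G (insert v A) := by
  have := (conn_singleton G v).union hA ⟨v, mem_singleton_self v, x, hx, Or.inr h⟩
  rwa [← Finset.insert_eq] at this

theorem conn_biUnion {ι : Type*} {G : SimpleGraph V} (s : Finset ι) (A : ι → Finset V) (v : V)
    (hs : s.Nonempty) (hA : ∀ i ∈ s, Conn G (A i)) (hv : ∀ i ∈ s, v ∈ A i) :
    Conn G (s.biUnion A) := by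
  apply Conn.of_forall
  · obtain ⟨i, hi⟩ := hs
    exact ⟨v, mem_biUnion.2 ⟨i, hi, hv i hi⟩⟩
  · intro C hm hcl
    have key : ∀ i ∈ s, (∃ z ∈ A i, z ∈ C) → A i ⊆ C := fun i hi hz =>
      (hA i hi).subset_of hz (fun u hu huC w hw huw =>
        hcl u (mem_biUnion.2 ⟨i, hi, hu⟩) huC w (mem_biUnion.2 ⟨i, hi, hw⟩) huw)
    obtain ⟨z, hz, hzC⟩ := hm
    obtain ⟨i, hi, hzi⟩ := mem_biUnion.1 hz
    have hvC : v ∈ C := key i hi ⟨z, hzi, hzC⟩ (hv i hi)
    intro y hy
    obtain ⟨j, hj, hyj⟩ := mem_biUnion.1 hy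
    exact key j hj ⟨v, hv j hj, hvC⟩ hyj

/-- The component of `u` inside `D`: the union of all connected subsets of `D` containing `u`. -/
def comp (G : SimpleGraph V) (D : Finset V) (u : V) : Finset V :=
  (D.powerset.filter (fun A => Conn G A ∧ u ∈ A)).biUnion id

theorem subset_comp {G : SimpleGraph V} {D A : Finset V} {u : V} (hA : A ⊆ D) (hc : Conn G A)
    (hu : u ∈ A) : A ⊆ comp G D u := by
  intro x hx
  rw [comp, mem_biUnion]
  exact ⟨A, by simp [hA, hc, hu], hx⟩

theorem comp_subset (G : SimpleGraph V) (D : Finset V) (u : V) : comp G D u ⊆ D := by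
  intro x hx
  rw [comp, mem_biUnion] at hx
  obtain ⟨A, hA, hxA⟩ := hx
  rw [mem_filter, mem_powerset] at hA
  exact hA.1 hxA

theorem mem_comp_self {G : SimpleGraph V} {D : Finset V} {u : V} (hu : u ∈ D) :
    u ∈ comp G D u :=
  subset_comp (by simpa using hu) (conn_singleton G u) (mem_singleton_self u)
    (mem_singleton_self u)

theorem conn_comp {G : SimpleGraph V} {D : Finset V} {u : V} (hu : u ∈ D) :
    Conn G (comp G D u) := by
  apply conn_biUnion _ _ u
  · exact ⟨{u}, by simp [hu, conn_singleton]⟩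
  · intro A hA
    rw [mem_filter] at hA
    exact hA.2.1
  · intro A hA
    rw [mem_filter] at hA
    exact hA.2.2

theorem comp_max {G : SimpleGraph V} {D A : Finset V} {u x : V} (hu : u ∈ D) (hA : A ⊆ D)
    (hc : Conn G A) (hx : x ∈ A) (hxc : x ∈ comp G D u) : A ⊆ comp G D u := by
  have h1 : Conn G (A ∪ comp G D u) := hc.union_of_mem (conn_comp hu) hx hxc
  have h2 := subset_comp (D := D) (u := u) (union_subset hA (comp_subset G D u)) h1
    (mem_union_right _ (mem_comp_self hu))
  exact fun y hy => h2 (mem_union_left _ hy)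

theorem comp_closed {G : SimpleGraph V} {D : Finset V} {u x y : V} (hu : u ∈ D)
    (hx : x ∈ comp G D u) (hy : y ∈ D) (hxy : G.Adj x y) : y ∈ comp G D u := by
  have hxD := comp_subset G D u hx
  have hc : Conn G (insert x {y}) := (conn_singleton G y).insert (mem_singleton_self y) hxy
  have h := comp_max (A := insert x {y}) hu (by
    intro z hz
    simp only [mem_insert, mem_singleton] at hz
    rcases hz with rfl | rfl
    · exact hxD
    · exact hy) hc (mem_insert_self _ _) hx
  exact h (by simp)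

/-- `Near k x y`: `y` is at distance at most `k` from `x`. -/
def Near (G : SimpleGraph V) : ℕ → V → V → Prop
  | 0, x, y => x = y
  | (k+1), x, y => ∃ z, Near G k x z ∧ (z = y ∨ G.Adj z y)

theorem Near.succ {G : SimpleGraph V} {k : ℕ} {x y : V} (h : Near G k x y) :
    Near G (k+1) x y := ⟨y, h, Or.inl rfl⟩

theorem Near.mono {G : SimpleGraph V} {k l : ℕ} {x y : V} (h : Near G k x y) (hkl : k ≤ l) :
    Near G l x y := by
  induction hkl with
  | refl => exact h
  | step _ ih => exact ih.succ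

theorem near_refl (G : SimpleGraph V) (k : ℕ) (x : V) : Near G k x x :=
  Near.mono (k := 0) (show x = x from rfl) (Nat.zero_le k)

theorem Near.edist_le {G : SimpleGraph V} {k : ℕ} {x y : V} (h : Near G k x y) :
    G.edist x y ≤ (k : ℕ∞) := by
  induction k generalizing y with
  | zero =>
    have : x = y := h
    subst this
    simp
  | succ k ih =>
    obtain ⟨z, hz, hzy⟩ := h
    have h1 := ih hz
    have h2 : G.edist z y ≤ 1 := by
      rcases hzy with rfl | h
      · simp
      · rw [← SimpleGraph.edist_eq_one_iff_adj] at h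
        exact h.le
    calc G.edist x y ≤ G.edist x z + G.edist z y := SimpleGraph.edist_triangle
      _ ≤ (k : ℕ∞) + 1 := add_le_add h1 h2
      _ = ((k+1 : ℕ) : ℕ∞) := by push_cast; rfl

/-- `S` is covered by the balls of radius `r` around `X`. -/
def Cov (G : SimpleGraph V) (r : ℕ) (X S : Finset V) : Prop :=
  ∀ s ∈ S, ∃ x ∈ X, Near G r x s

theorem Cov.mono {G : SimpleGraph V} {r r' : ℕ} {X X' S : Finset V} (h : Cov G r X S)
    (hr : r ≤ r') (hX : X ⊆ X') : Cov G r' X' S := by
  intro s hs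
  obtain ⟨x, hx, hn⟩ := h s hs
  exact ⟨x, hX hx, hn.mono hr⟩

theorem Cov.union {G : SimpleGraph V} {r : ℕ} {X X' S S' : Finset V} (h : Cov G r X S)
    (h' : Cov G r X' S') : Cov G r (X ∪ X') (S ∪ S') := by
  intro s hs
  rcases mem_union.1 hs with hs | hs
  · obtain ⟨x, hx, hn⟩ := h s hs
    exact ⟨x, mem_union_left _ hx, hn⟩
  · obtain ⟨x, hx, hn⟩ := h' s hs
    exact ⟨x, mem_union_right _ hx, hn⟩

/-- The induced-minor-free condition in terms of finite connected sets. -/
def HFree {W : Type*} (H : SimpleGraph W) (G : SimpleGraph V) : Prop :=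
  ¬ ∃ B : W → Finset V, (∀ a, Conn G (B a)) ∧ (∀ a b, a ≠ b → Disjoint (B a) (B b)) ∧
    (∀ a b, a ≠ b → (H.Adj a b ↔ ∃ x ∈ B a, ∃ y ∈ B b, G.Adj x y))

theorem conn_of_connected {G : SimpleGraph V} {A : Finset V}
    (h : (G.induce (A : Set V)).Connected) : Conn G A := by
  have hne : A.Nonempty := by
    obtain ⟨⟨x, hx⟩⟩ := h.nonempty
    exact ⟨x, by simpa using hx⟩
  refine ⟨hne, ?_⟩
  intro B hB hBne hcl
  refine Finset.Subset.antisymm hB ?_
  intro a ha
  obtain ⟨b, hb⟩ := hBne
  have hr : (G.induce (A : Set V)).Reachable ⟨b, by simpa using hB hb⟩ ⟨a, by simpa using ha⟩ :=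
    h.preconnected _ _
  rw [SimpleGraph.reachable_iff_reflTransGen] at hr
  have key : ∀ z : (A : Set V), Relation.ReflTransGen (G.induce (A : Set V)).Adj
      ⟨b, by simpa using hB hb⟩ z → (z : V) ∈ B := by
    intro z hz
    induction hz with
    | refl => exact hb
    | @tail p q _ hstep ih =>
      exact hcl p ih q (by simpa using q.2) hstep
  exact key _ hr

theorem connected_of_conn {G : SimpleGraph V} {A : Finset V} (h : Conn G A) :
    (G.induce (A : Set V)).Connected := by
  obtain ⟨a, ha⟩ := h.1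
  have key : ∀ x : (A : Set V), (G.induce (A : Set V)).Reachable ⟨a, by simpa using ha⟩ x := by
    have hsub : A ⊆ A.filter (fun x => ∃ hx : x ∈ (A : Set V),
        (G.induce (A : Set V)).Reachable ⟨a, by simpa using ha⟩ ⟨x, hx⟩) := by
      apply h.subset_of
      · exact ⟨a, ha, by
          rw [mem_filter]
          exact ⟨ha, by simpa using ha, SimpleGraph.Reachable.refl _⟩⟩
      · intro x hx hxC y hy hxy
        rw [mem_filter] at hxC ⊢
        obtain ⟨_, hx', hr⟩ := hxC
        refine ⟨hy, by simpa using hy, hr.trans ?_⟩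
        apply SimpleGraph.Adj.reachable
        exact hxy
    intro x
    have hx : (x : V) ∈ A := by simpa using x.2
    obtain ⟨_, h2⟩ := (mem_filter.1 (hsub hx)).2
    exact h2
  rw [SimpleGraph.connected_iff_exists_forall_reachable]
  exact ⟨_, key⟩

theorem conn_iff_connected {G : SimpleGraph V} {A : Finset V} :
    Conn G A ↔ (G.induce (A : Set V)).Connected :=
  ⟨connected_of_conn, conn_of_connected⟩

end

end Run7.h390
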