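import Pool.Agent.Run7.h390.Metric

set_option autoImplicit false
set_option linter.unusedSectionVars false
set_option linter.unnecessarySimpa false

namespace Run7.h390

open Finset Classical

noncomputable section

variable {V : Type*} [Fintype V] [DecidableEq V]

theorem greedy (N : V → Finset V) (g : V → ℕ) : ∀ (k : ℕ) (S : Finset V), S.card ≤ k →
    (∀ u ∈ S, (N u).Nonempty) →
    ∃ U : Finset V, U ⊆ S ∧ (∀ u ∈ U, ∀ u' ∈ U, u ≠ u' → Disjoint (N u) (N u')) ∧
      ∀ u ∈ S, ∃ u' ∈ U, g u ≤ g u' ∧ ∃ v, v ∈ N u ∧ v ∈ N u' := by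
  intro k
  induction k with
  | zero =>
    intro S hS _
    have : S = ∅ := card_eq_zero.1 (Nat.le_zero.1 hS)
    subst this
    exact ⟨∅, by simp, by simp, by simp⟩
  | succ k ih =>
    intro S hS hne
    by_cases hSe : S.Nonempty
    · obtain ⟨u0, hu0, hmax⟩ := exists_max_image S g hSe
      have hsub : S.filter (fun u => Disjoint (N u) (N u0)) ⊆ S := filter_subset _ _
      have hu0n : u0 ∉ S.filter (fun u => Disjoint (N u) (N u0)) := by
        rw [mem_filter]
        rintro ⟨_, hd⟩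
        rw [disjoint_self_iff_empty] at hd
        exact (hne u0 hu0).ne_empty hd
      have hcard : (S.filter (fun u => Disjoint (N u) (N u0))).card < S.card :=
        card_lt_card ⟨hsub, fun h => hu0n (h hu0)⟩
      obtain ⟨U, hUS, hdis, hcov⟩ := ih (S.filter (fun u => Disjoint (N u) (N u0)))
        (by omega) (fun u hu => hne u (hsub hu))
      refine ⟨insert u0 U, insert_subset hu0 (hUS.trans hsub), ?_, ?_⟩
      · intro u hu u' hu' huu'
        rcases mem_insert.1 hu with h1 | h1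
        · rcases mem_insert.1 hu' with h2 | h2
          · exact absurd (h1.trans h2.symm) huu'
          · rw [h1]
            exact (mem_filter.1 (hUS h2)).2.symm
        · rcases mem_insert.1 hu' with h2 | h2
          · rw [h2]
            exact (mem_filter.1 (hUS h1)).2
          · exact hdis u h1 u' h2 huu'
      · intro u hu
        by_cases hd : Disjoint (N u) (N u0)
        · obtain ⟨u', hu', hg, hv⟩ := hcov u (mem_filter.2 ⟨hu, hd⟩)
          exact ⟨u', mem_insert_of_mem hu', hg, hv⟩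
        · rw [not_disjoint_iff] at hd
          obtain ⟨v, hv1, hv2⟩ := hd
          exact ⟨u0, mem_insert_self _ _, hmax u hu, v, hv1, hv2⟩
    · rw [not_nonempty_iff_eq_empty] at hSe
      subst hSe
      exact ⟨∅, by simp, by simp, by simp⟩

theorem sum_windows (T : Finset ℕ) (A : Finset V) (g wd : V → ℕ) (P : ℕ → V → Prop)
    [∀ t v, Decidable (P t v)]
    (hw : ∀ v ∈ A, (T.filter (fun t => P t v)).card ≤ wd v) :
    ∑ t ∈ T, ∑ v ∈ A.filter (fun v => P t v), g v ≤ ∑ v ∈ A, g v * wd v := by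
  simp only [sum_filter]
  rw [sum_comm]
  apply sum_le_sum
  intro v hv
  rw [← sum_filter, sum_const, smul_eq_mul, mul_comm]
  exact Nat.mul_le_mul_left _ (hw v hv)

theorem card_window (T : Finset ℕ) (P : ℕ → Prop) [DecidablePred P] (a b w : ℕ) (h : ∀ t, P t → a ≤ t ∧ t < b)
    (hw : b ≤ a + w) : (T.filter P).card ≤ w := by
  calc (T.filter P).card ≤ (Ico a b).card := by
        apply card_le_card
        intro t ht
        rw [mem_filter] at ht
        rw [mem_Ico]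
        exact h t ht.2
    _ = b - a := Nat.card_Ico a b
    _ ≤ w := by omega

theorem near_two {G : SimpleGraph V} {u u' v : V} (h1 : v ∈ cn G u') (h2 : v ∈ cn G u) :
    Near G 2 u' u := by
  refine ⟨v, ⟨u', rfl, ?_⟩, ?_⟩
  · rw [mem_cn] at h1
    exact h1.imp Eq.symm id
  · rw [mem_cn] at h2
    exact h2.imp id (fun h => h.symm)

theorem sum_disj_le (U : Finset V) (N : V → Finset V) (X : V → ℕ) (A : Finset V)
    (hdis : ∀ u ∈ U, ∀ u' ∈ U, u ≠ u' → Disjoint (N u) (N u'))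
    (hsub : ∀ u ∈ U, N u ⊆ A) : ∑ u ∈ U, ∑ v ∈ N u, X v ≤ ∑ v ∈ A, X v := by
  rw [← sum_biUnion (fun u hu u' hu' h => hdis u hu u' hu' h)]
  apply sum_le_sum_of_subset
  intro v hv
  rw [mem_biUnion] at hv
  obtain ⟨u, hu, hv⟩ := hv
  exact hsub u hu hv

theorem sumX_le (G : SimpleGraph V) (X : V → ℕ) (C d : ℕ) (hC : 1 ≤ C)
    (hF : ∑ v, X v * Lam G X v ≤ C * d^2) :
    ((∑ v, X v : ℕ) : ℝ) ≤ C * Real.sqrt (Fintype.card V) * d := by
  have h1 : (∑ v, X v)^2 ≤ Fintype.card V * ∑ v, (X v)^2 := by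
    have := sq_sum_le_card_mul_sum_sq (s := (univ : Finset V)) (f := X)
    simpa using this
  have h2 : ∑ v, (X v)^2 ≤ ∑ v, X v * Lam G X v := by
    apply sum_le_sum
    intro v _
    rw [sq]
    exact Nat.mul_le_mul_left _ (le_Lam G X v)
  have h3 : (∑ v, X v)^2 ≤ Fintype.card V * (C * d^2) :=
    h1.trans (Nat.mul_le_mul_left _ (h2.trans hF))
  have h4 : (((∑ v, X v : ℕ) : ℝ))^2 ≤ (Fintype.card V : ℝ) * (C * d^2) := by exact_mod_cast h3
  refine (pow_le_pow_iff_left₀ (by positivity) (by positivity) two_ne_zero).1 ?_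
  calc (((∑ v, X v : ℕ) : ℝ))^2 ≤ (Fintype.card V : ℝ) * (C * d^2) := h4
    _ ≤ (Fintype.card V : ℝ) * (C^2 * d^2) := by
        have : (C:ℝ) ≤ (C:ℝ)^2 := by
          have : (1:ℝ) ≤ C := by exact_mod_cast hC
          nlinarith
        gcongr
    _ = (C * Real.sqrt (Fintype.card V) * d)^2 := by
        rw [mul_pow, mul_pow, Real.sq_sqrt (Nat.cast_nonneg _)]
        ring

theorem cut_lemma (G : SimpleGraph V) (X : V → ℕ) (C d : ℕ) (hC : 1 ≤ C) (hd : 1 ≤ d)
    (hX : ∀ v, 1 ≤ X v) (hF : ∑ v, X v * Lam G X v ≤ C * d^2) (L : Finset V) (f : V → ℕ)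
    (hlip : ∀ u ∈ L, ∀ v ∈ L, G.Adj u v → f u ≤ f v + Lam G X u) :
    ∃ Z : ℕ → Finset V, (∀ T : Finset ℕ, ((∑ t ∈ T, (Z t).card : ℕ) : ℝ) ≤
      (1 + 16 * C : ℝ) * Real.sqrt (Fintype.card V) * d) ∧
      ∀ t u, cn G u ⊆ L → t ≤ f u → f u < t + Lam G X u → ∃ z ∈ Z t, Near G 2 z u := by
  set s := Real.sqrt (Fintype.card V) with hs
  set Λ := Lam G X with hΛ
  have hΛ1 : ∀ v, 1 ≤ Λ v := fun v => (hX v).trans (le_Lam G X v)
  have hlip' : ∀ u ∈ L, ∀ v ∈ L, v ∈ cn G u → f u ≤ f v + Λ u := by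
    intro u hu v hv h
    rcases mem_cn.1 h with h | h
    · rw [h]; omega
    · exact hlip u hu v hv h
  set Lo := univ.filter (fun u => cn G u ⊆ L) with hLo
  have hLo' : ∀ u ∈ Lo, cn G u ⊆ L := fun u hu => (mem_filter.1 hu).2
  have hLoL : ∀ u ∈ Lo, u ∈ L := fun u hu => hLo' u hu (self_mem_cn G u)
  set Nh : V → Finset V := fun u => (cn G u).filter (fun v => Λ u < Λ v) with hNh
  set Nl : V → Finset V := fun u => (cn G u).filter (fun v => ¬ Λ u < Λ v) with hNl
  have hsplit : ∀ u, Λ u = ∑ v ∈ Nh u, X v + ∑ v ∈ Nl u, X v := by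
    intro u
    rw [hΛ, Lam, hNh, hNl]
    exact (sum_filter_add_sum_filter_not _ _ _).symm
  -- type a
  set Za : ℕ → Finset V := fun t => (Lo.filter (fun u => (Λ u : ℝ) * s < d)).filter
    (fun u => t ≤ f u ∧ f u < t + Λ u) with hZa
  have hsuma : ∀ T : Finset ℕ, ((∑ t ∈ T, (Za t).card : ℕ) : ℝ) ≤ s * d := by
    intro T
    have h1 : ∑ t ∈ T, (Za t).card ≤ ∑ u ∈ Lo.filter (fun u => (Λ u : ℝ) * s < d), 1 * Λ u := by
      have := sum_windows T (Lo.filter (fun u => (Λ u : ℝ) * s < d)) (fun _ => 1) Λ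
        (fun t u => t ≤ f u ∧ f u < t + Λ u) (by
          intro v _
          exact card_window T _ (f v + 1 - Λ v) (f v + 1) (Λ v) (fun t ht => by omega)
            (by omega))
      simpa [hZa] using this
    have h2 : ((∑ u ∈ Lo.filter (fun u => (Λ u : ℝ) * s < d), 1 * Λ u : ℕ) : ℝ) * s ≤
        s * d * s := by
      push_cast
      rw [sum_mul]
      calc ∑ u ∈ Lo.filter (fun u => (Λ u : ℝ) * s < d), (1 * (Λ u : ℝ)) * s
          ≤ ∑ u ∈ Lo.filter (fun u => (Λ u : ℝ) * s < d), (d : ℝ) := by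
            apply sum_le_sum
            intro u hu
            rw [one_mul]
            exact (mem_filter.1 hu).2.le
        _ ≤ ∑ u : V, (d : ℝ) := by
            apply sum_le_sum_of_subset_of_nonneg (subset_univ _)
            intro _ _ _
            positivity
        _ = (Fintype.card V) * d := by simp
        _ = s * s * d := by rw [hs, Real.mul_self_sqrt (Nat.cast_nonneg _)]
        _ = s * d * s := by ring
    by_cases hn : Fintype.card V = 0
    · have : IsEmpty V := Fintype.card_eq_zero_iff.1 hn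
      have h0 : ∀ t, Za t = ∅ := fun t => Finset.eq_empty_of_isEmpty _
      simp [h0]
      positivity
    · have hspos : 0 < s := by
        rw [hs]; apply Real.sqrt_pos.2; exact_mod_cast Nat.pos_of_ne_zero hn
      calc ((∑ t ∈ T, (Za t).card : ℕ) : ℝ) ≤
          ((∑ u ∈ Lo.filter (fun u => (Λ u : ℝ) * s < d), 1 * Λ u : ℕ) : ℝ) := by
            exact_mod_cast h1
        _ ≤ s * d := le_of_mul_le_mul_right h2 hspos
  -- type b
  set Sb : ℕ → Finset V := fun t => Lo.filter (fun u => (d : ℝ) ≤ (Λ u : ℝ) * s ∧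
    Λ u ≤ 2 * ∑ v ∈ Nh u, X v ∧ t ≤ f u ∧ f u < t + Λ u) with hSb
  have hb : ∀ t, ∃ U : Finset V, U ⊆ Sb t ∧
      (∀ u ∈ U, ∀ u' ∈ U, u ≠ u' → Disjoint (Nh u) (Nh u')) ∧
      ∀ u ∈ Sb t, ∃ u' ∈ U, (0:ℕ) ≤ 0 ∧ ∃ v, v ∈ Nh u ∧ v ∈ Nh u' := by
    intro t
    apply greedy Nh (fun _ => 0) (Sb t).card (Sb t) le_rfl
    intro u hu
    have h1 := (mem_filter.1 hu).2.2.1
    by_contra hne
    rw [not_nonempty_iff_eq_empty] at hne
    rw [hne] at h1
    have := hΛ1 u
    simp at h1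
    omega
  choose Zb hZbS hZbd hZbc using hb
  have hsumb : ∀ T : Finset ℕ, ((∑ t ∈ T, (Zb t).card : ℕ) : ℝ) ≤ 6 * C * s * d := by
    intro T
    have hwin : ∀ t, ∀ u ∈ Zb t, Nh u ⊆
        univ.filter (fun v => t ≤ f v + Λ v ∧ f v < t + 2 * Λ v) := by
      intro t u hu v hv
      have huS := mem_filter.1 (hZbS t hu)
      obtain ⟨huLo, _, _, h3, h4⟩ := huS
      obtain ⟨hvc, hvl⟩ := mem_filter.1 hv
      have huL := hLoL u huLo
      have hvL : v ∈ L := hLo' u huLo hvc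
      have l1 := hlip' u huL v hvL hvc
      have l2 := hlip' v hvL u huL (mem_cn_comm.1 hvc)
      rw [mem_filter]
      refine ⟨mem_univ _, ?_, ?_⟩ <;> omega
    have h1 : ∀ t ∈ T, ((Zb t).card : ℝ) * d ≤ s * (2 *
        ((∑ v ∈ univ.filter (fun v => t ≤ f v + Λ v ∧ f v < t + 2 * Λ v), X v : ℕ) : ℝ)) := by
      intro t _
      calc ((Zb t).card : ℝ) * d = ∑ u ∈ Zb t, (d : ℝ) := by simp
        _ ≤ ∑ u ∈ Zb t, s * (2 * ((∑ v ∈ Nh u, X v : ℕ) : ℝ)) := by
            apply sum_le_sum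
            intro u hu
            have huS := mem_filter.1 (hZbS t hu)
            obtain ⟨_, h2, h3, _, _⟩ := huS
            have h3' : (Λ u : ℝ) ≤ 2 * ((∑ v ∈ Nh u, X v : ℕ) : ℝ) := by exact_mod_cast h3
            calc (d : ℝ) ≤ (Λ u : ℝ) * s := h2
              _ = s * (Λ u : ℝ) := by ring
              _ ≤ _ := by gcongr
        _ = s * (2 * ((∑ u ∈ Zb t, ∑ v ∈ Nh u, X v : ℕ) : ℝ)) := by
            push_cast
            rw [← mul_sum, ← mul_sum]
        _ ≤ _ := by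
            have := sum_disj_le (Zb t) Nh X _ (hZbd t) (hwin t)
            gcongr
    have h2 : ∑ t ∈ T, ∑ v ∈ univ.filter (fun v => t ≤ f v + Λ v ∧ f v < t + 2 * Λ v), X v ≤
        ∑ v, X v * (3 * Λ v) := by
      apply sum_windows T univ X (fun v => 3 * Λ v)
        (fun t v => t ≤ f v + Λ v ∧ f v < t + 2 * Λ v)
      intro v _
      exact card_window T _ (f v + 1 - 2 * Λ v) (f v + Λ v + 1) (3 * Λ v)
        (fun t ht => by omega) (by omega)
    have h3 : ∑ v, X v * (3 * Λ v) = 3 * ∑ v, X v * Λ v := by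
      rw [mul_sum]
      apply sum_congr rfl
      intro v _
      ring
    have h4 : ∑ v, X v * (3 * Λ v) ≤ 3 * (C * d^2) := by
      rw [h3]; exact Nat.mul_le_mul_left _ hF
    have h5 : ((∑ t ∈ T, (Zb t).card : ℕ) : ℝ) * d ≤ (6 * C * s * d) * d := by
      push_cast
      rw [sum_mul]
      calc ∑ t ∈ T, ((Zb t).card : ℝ) * d ≤ ∑ t ∈ T, s * (2 *
        ((∑ v ∈ univ.filter (fun v => t ≤ f v + Λ v ∧ f v < t + 2 * Λ v), X v : ℕ) : ℝ)) :=
            sum_le_sum h1
        _ = s * (2 * ((∑ t ∈ T, ∑ v ∈ univ.filter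
            (fun v => t ≤ f v + Λ v ∧ f v < t + 2 * Λ v), X v : ℕ) : ℝ)) := by
            push_cast
            rw [← mul_sum, ← mul_sum]
        _ ≤ s * (2 * ((3 * (C * d^2) : ℕ) : ℝ)) := by
            have := h2.trans h4
            gcongr
        _ = _ := by push_cast; ring
    have hdpos : (0:ℝ) < d := by exact_mod_cast hd
    exact le_of_mul_le_mul_right h5 hdpos
  -- type c
  obtain ⟨Uc, hUcS, hUcd, hUcc⟩ := greedy Nl Λ (Lo.filter (fun u => Λ u ≤ 2 * ∑ v ∈ Nl u, X v)).card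
    (Lo.filter (fun u => Λ u ≤ 2 * ∑ v ∈ Nl u, X v)) le_rfl (by
      intro u _
      exact ⟨u, mem_filter.2 ⟨self_mem_cn G u, lt_irrefl _⟩⟩)
  set Zc : ℕ → Finset V := fun t => Uc.filter (fun u => f u < t + 3 * Λ u ∧ t ≤ f u + 2 * Λ u)
    with hZc
  have hsumc : ∀ T : Finset ℕ, ((∑ t ∈ T, (Zc t).card : ℕ) : ℝ) ≤ 10 * C * s * d := by
    intro T
    have h1 : ∑ t ∈ T, (Zc t).card ≤ ∑ u ∈ Uc, 1 * (5 * Λ u) := by
      have := sum_windows T Uc (fun _ => 1) (fun u => 5 * Λ u)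
        (fun t u => f u < t + 3 * Λ u ∧ t ≤ f u + 2 * Λ u) (by
          intro v _
          exact card_window T _ (f v + 1 - 3 * Λ v) (f v + 2 * Λ v + 1) (5 * Λ v)
            (fun t ht => by omega) (by omega))
      simpa [hZc] using this
    have h2 : ∑ u ∈ Uc, 1 * (5 * Λ u) ≤ 10 * ∑ v, X v := by
      calc ∑ u ∈ Uc, 1 * (5 * Λ u) ≤ ∑ u ∈ Uc, 10 * ∑ v ∈ Nl u, X v := by
            apply sum_le_sum
            intro u hu
            have := (mem_filter.1 (hUcS hu)).2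
            omega
        _ = 10 * ∑ u ∈ Uc, ∑ v ∈ Nl u, X v := by rw [mul_sum]
        _ ≤ _ := Nat.mul_le_mul_left _ (sum_disj_le Uc Nl X univ hUcd (fun _ _ => subset_univ _))
    have h3 := sumX_le G X C d hC hF
    calc ((∑ t ∈ T, (Zc t).card : ℕ) : ℝ) ≤ ((10 * ∑ v, X v : ℕ) : ℝ) := by
          exact_mod_cast h1.trans h2
      _ = 10 * ((∑ v, X v : ℕ) : ℝ) := by push_cast; ring
      _ ≤ 10 * (C * s * d) := by gcongr
      _ = _ := by ring
  refine ⟨fun t => Za t ∪ (Zb t ∪ Zc t), ?_, ?_⟩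
  · intro T
    have h1 : ∑ t ∈ T, (Za t ∪ (Zb t ∪ Zc t)).card ≤
        ∑ t ∈ T, (Za t).card + (∑ t ∈ T, (Zb t).card + ∑ t ∈ T, (Zc t).card) := by
      rw [← sum_add_distrib, ← sum_add_distrib]
      apply sum_le_sum
      intro t _
      have e1 := card_union_le (Za t) (Zb t ∪ Zc t)
      have e2 := card_union_le (Zb t) (Zc t)
      omega
    have h1' : ((∑ t ∈ T, (Za t ∪ (Zb t ∪ Zc t)).card : ℕ) : ℝ) ≤
        ((∑ t ∈ T, (Za t).card : ℕ) : ℝ) + (((∑ t ∈ T, (Zb t).card : ℕ) : ℝ) +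
          ((∑ t ∈ T, (Zc t).card : ℕ) : ℝ)) := by exact_mod_cast h1
    have ha := hsuma T
    have hb := hsumb T
    have hc := hsumc T
    calc _ ≤ _ := h1'
      _ ≤ s * d + (6 * C * s * d + 10 * C * s * d) := by gcongr
      _ = _ := by ring
  · intro t u hcn ht1 ht2
    have huLo : u ∈ Lo := mem_filter.2 ⟨mem_univ _, hcn⟩
    by_cases ha : (Λ u : ℝ) * s < d
    · refine ⟨u, mem_union_left _ ?_, near_refl G 2 u⟩
      rw [hZa, mem_filter, mem_filter]
      exact ⟨⟨huLo, ha⟩, ht1, ht2⟩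
    · by_cases hb : Λ u ≤ 2 * ∑ v ∈ Nh u, X v
      · have huS : u ∈ Sb t := mem_filter.2 ⟨huLo, not_lt.1 ha, hb, ht1, ht2⟩
        obtain ⟨u', hu', _, v, hv1, hv2⟩ := hZbc t u huS
        exact ⟨u', mem_union_right _ (mem_union_left _ hu'),
          near_two (mem_filter.1 hv2).1 (mem_filter.1 hv1).1⟩
      · have hc : Λ u ≤ 2 * ∑ v ∈ Nl u, X v := by
          have := hsplit u
          omega
        obtain ⟨u', hu', hg, v, hv1, hv2⟩ := hUcc u (mem_filter.2 ⟨huLo, hc⟩)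
        have hv1' := (mem_filter.1 hv1)
        have hv2' := (mem_filter.1 hv2)
        refine ⟨u', mem_union_right _ (mem_union_right _ ?_), near_two hv2'.1 hv1'.1⟩
        have hu'Lo : u' ∈ Lo := (mem_filter.1 (hUcS hu')).1
        have huL := hLoL u huLo
        have hu'L := hLoL u' hu'Lo
        have hvL : v ∈ L := hLo' u huLo hv1'.1
        have l1 := hlip' u huL v hvL hv1'.1
        have l2 := hlip' v hvL u huL (mem_cn_comm.1 hv1'.1)
        have l3 := hlip' u' hu'L v hvL hv2'.1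
        have l4 := hlip' v hvL u' hu'L (mem_cn_comm.1 hv2'.1)
        have g1 := hv1'.2
        have g2 := hv2'.2
        rw [hZc, mem_filter]
        refine ⟨hu', ?_, ?_⟩ <;> omega

end

end Run7.h390
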