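import Pool.Agent.Run7.h390.Basic

set_option autoImplicit false
set_option linter.unusedSectionVars false
set_option linter.unnecessarySimpa false

namespace Run7.h390

open Finset Classical

noncomputable section

variable {V : Type*} [Fintype V] [DecidableEq V]

/-- Closed neighbourhood. -/
def cn (G : SimpleGraph V) (v : V) : Finset V := univ.filter (fun u => u = v ∨ G.Adj v u)

theorem mem_cn {G : SimpleGraph V} {u v : V} : u ∈ cn G v ↔ u = v ∨ G.Adj v u := by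
  simp [cn]

theorem self_mem_cn (G : SimpleGraph V) (v : V) : v ∈ cn G v := mem_cn.2 (Or.inl rfl)

theorem mem_cn_comm {G : SimpleGraph V} {u v : V} : u ∈ cn G v ↔ v ∈ cn G u := by
  rw [mem_cn, mem_cn]
  constructor
  · rintro (h | h)
    · exact Or.inl h.symm
    · exact Or.inr h.symm
  · rintro (h | h)
    · exact Or.inl h.symm
    · exact Or.inr h.symm

/-- Smallest weight of a connected subset of `L` containing `v` and meeting `R`. -/
def ds (G : SimpleGraph V) (Λ : V → ℕ) (L R : Finset V) (v : V) : ℕ :=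
  sInf {k | ∃ A : Finset V, A ⊆ L ∧ Conn G A ∧ v ∈ A ∧ (∃ r ∈ A, r ∈ R) ∧ k = ∑ x ∈ A, Λ x}

variable {G : SimpleGraph V} {Λ : V → ℕ} {L R : Finset V}

theorem ds_le {A : Finset V} {v : V} (hAL : A ⊆ L) (hA : Conn G A) (hv : v ∈ A)
    (hr : ∃ r ∈ A, r ∈ R) : ds G Λ L R v ≤ ∑ x ∈ A, Λ x :=
  Nat.sInf_le ⟨A, hAL, hA, hv, hr, rfl⟩

theorem ds_attain (hL : Conn G L) (hR : ∃ r ∈ L, r ∈ R) {v : V} (hv : v ∈ L) :
    ∃ A : Finset V, A ⊆ L ∧ Conn G A ∧ v ∈ A ∧ (∃ r ∈ A, r ∈ R) ∧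
      ds G Λ L R v = ∑ x ∈ A, Λ x := by
  have hne : {k | ∃ A : Finset V, A ⊆ L ∧ Conn G A ∧ v ∈ A ∧ (∃ r ∈ A, r ∈ R) ∧
      k = ∑ x ∈ A, Λ x}.Nonempty := ⟨_, L, Finset.Subset.refl _, hL, hv, hR, rfl⟩
  exact Nat.sInf_mem hne

theorem sum_insert_le' (Λ : V → ℕ) (A : Finset V) (a : V) :
    ∑ x ∈ insert a A, Λ x ≤ Λ a + ∑ x ∈ A, Λ x := by
  by_cases h : a ∈ A
  · rw [insert_eq_of_mem h]; omega
  · rw [sum_insert h]

theorem sum_union_le' (Λ : V → ℕ) (A B : Finset V) :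
    ∑ x ∈ A ∪ B, Λ x ≤ ∑ x ∈ A, Λ x + ∑ x ∈ B, Λ x := by
  rw [← sum_union_inter]
  exact Nat.le_add_right _ _

theorem le_sum_of_mem {A : Finset V} {a : V} (h : a ∈ A) : Λ a ≤ ∑ x ∈ A, Λ x :=
  Finset.single_le_sum (f := Λ) (fun _ _ => Nat.zero_le _) h

theorem ds_lip (hL : Conn G L) (hR : ∃ r ∈ L, r ∈ R) {u v : V} (hu : u ∈ L) (hv : v ∈ L)
    (h : G.Adj u v) : ds G Λ L R u ≤ ds G Λ L R v + Λ u := by
  obtain ⟨A, hAL, hA, hvA, ⟨r, hrA, hr⟩, he⟩ := ds_attain (Λ := Λ) hL hR hv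
  have h1 : ds G Λ L R u ≤ ∑ x ∈ insert u A, Λ x := by
    apply ds_le
    · exact insert_subset hu hAL
    · exact hA.insert hvA h
    · exact mem_insert_self _ _
    · exact ⟨r, mem_insert_of_mem hrA, hr⟩
  have h2 := sum_insert_le' Λ A u
  omega

theorem ds_lip_conn (hL : Conn G L) (hR : ∃ r ∈ L, r ∈ R) {A : Finset V} (hAL : A ⊆ L)
    (hA : Conn G A) {a z : V} (ha : a ∈ A) (hz : z ∈ A) :
    ds G Λ L R a ≤ ds G Λ L R z + ∑ x ∈ A, Λ x := by
  obtain ⟨B, hBL, hB, hzB, ⟨r, hrB, hr⟩, he⟩ := ds_attain (Λ := Λ) hL hR (hAL hz)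
  have h1 : ds G Λ L R a ≤ ∑ x ∈ B ∪ A, Λ x := by
    apply ds_le
    · exact union_subset hBL hAL
    · exact hB.union_of_mem hA hzB hz
    · exact mem_union_right _ ha
    · exact ⟨r, mem_union_left _ hrB, hr⟩
  have h2 := sum_union_le' Λ B A
  omega

theorem ds_of_mem {v : V} (hv : v ∈ L) (hr : v ∈ R) : ds G Λ L R v ≤ Λ v := by
  have := ds_le (G := G) (Λ := Λ) (L := L) (R := R) (A := {v}) (v := v) (by simpa using hv)
    (conn_singleton G v) (mem_singleton_self v) ⟨v, mem_singleton_self v, hr⟩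
  simpa using this

theorem le_ds (hL : Conn G L) (hR : ∃ r ∈ L, r ∈ R) {v : V} (hv : v ∈ L) :
    Λ v ≤ ds G Λ L R v := by
  obtain ⟨A, _, _, hvA, _, he⟩ := ds_attain (Λ := Λ) hL hR hv
  rw [he]
  exact le_sum_of_mem hvA

theorem link (hΛ : ∀ v, 1 ≤ Λ v) (hL : Conn G L) (hR : ∃ r ∈ L, r ∈ R) :
    ∀ k : ℕ, ∀ a ∈ L, ds G Λ L R a ≤ k → ∃ A : Finset V, A ⊆ L ∧ Conn G A ∧ a ∈ A ∧
      (∃ r ∈ A, r ∈ R) ∧ ∑ x ∈ A, Λ x ≤ ds G Λ L R a ∧
      ∀ u ∈ A, ∃ A' : Finset V, A' ⊆ A ∧ Conn G A' ∧ a ∈ A' ∧ u ∈ A' ∧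
        ∑ x ∈ A', Λ x + ds G Λ L R u ≤ ds G Λ L R a + Λ u := by
  intro k
  induction k with
  | zero =>
    intro a ha h
    have h1 := le_ds (Λ := Λ) hL hR ha
    have h2 := hΛ a
    omega
  | succ k ih =>
    intro a ha hk
    by_cases haR : a ∈ R
    · refine ⟨{a}, by simpa using ha, conn_singleton G a, mem_singleton_self a,
        ⟨a, mem_singleton_self a, haR⟩, ?_, ?_⟩
      · simpa using le_ds (Λ := Λ) hL hR ha
      · intro u hu
        rw [mem_singleton] at hu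
        subst hu
        refine ⟨{u}, Finset.Subset.refl _, conn_singleton G u, mem_singleton_self u,
          mem_singleton_self u, ?_⟩
        rw [sum_singleton]
        omega
    · obtain ⟨A0, hA0L, hA0, haA0, ⟨r, hrA0, hr⟩, he⟩ := ds_attain (Λ := Λ) hL hR ha
      have hra : r ≠ a := fun h => haR (h ▸ hr)
      have hrD : r ∈ A0.erase a := mem_erase.2 ⟨hra, hrA0⟩
      have haK : a ∉ comp G (A0.erase a) r := by
        intro h
        have := comp_subset _ _ _ h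
        exact (mem_erase.1 this).1 rfl
      obtain ⟨b, hbA0, hbK, y, hyA0, hyK, hby⟩ := hA0.exit (C := comp G (A0.erase a) r)
        ⟨r, hrA0, mem_comp_self hrD⟩ ⟨a, haA0, haK⟩
      have hya : y = a := by
        by_contra hne
        exact hyK (comp_closed hrD hbK (mem_erase.2 ⟨hne, hyA0⟩) hby)
      subst hya
      have h1 : ds G Λ L R b ≤ ∑ x ∈ comp G (A0.erase y) r, Λ x := by
        apply ds_le
        · exact (comp_subset _ _ _).trans ((erase_subset _ _).trans hA0L)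
        · exact conn_comp hrD
        · exact hbK
        · exact ⟨r, mem_comp_self hrD, hr⟩
      have h2 : ∑ x ∈ comp G (A0.erase y) r, Λ x ≤ ∑ x ∈ A0.erase y, Λ x :=
        sum_le_sum_of_subset (comp_subset _ _ _)
      have h3 : Λ y + ∑ x ∈ A0.erase y, Λ x = ∑ x ∈ A0, Λ x := add_sum_erase _ _ haA0
      have h4 : ds G Λ L R b + Λ y ≤ ds G Λ L R y := by omega
      have hbL : b ∈ L := hA0L hbA0
      have hy1 := hΛ y
      obtain ⟨A1, hA1L, hA1, hbA1, ⟨r', hr'A1, hr'⟩, hsum, hlink⟩ := ih b hbL (by omega)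
      have hadj : G.Adj y b := hby.symm
      refine ⟨insert y A1, insert_subset ha hA1L, hA1.insert hbA1 hadj, mem_insert_self _ _,
        ⟨r', mem_insert_of_mem hr'A1, hr'⟩, ?_, ?_⟩
      · have := sum_insert_le' Λ A1 y
        omega
      · intro u hu
        by_cases huy : u = y
        · subst huy
          refine ⟨{u}, by simp, conn_singleton G u, mem_singleton_self u,
            mem_singleton_self u, ?_⟩
          rw [sum_singleton]
          omega
        · have huA1 : u ∈ A1 := by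
            rcases mem_insert.1 hu with h | h
            · exact absurd h huy
            · exact h
          obtain ⟨A', hA'A, hA', hbA', huA', hs⟩ := hlink u huA1
          refine ⟨insert y A', ?_, hA'.insert hbA' hadj, mem_insert_self _ _,
            mem_insert_of_mem huA', ?_⟩
          · exact insert_subset_insert _ hA'A
          · have := sum_insert_le' Λ A' y
            omega

/-- The distance between two vertices. -/
def dh (G : SimpleGraph V) (Λ : V → ℕ) (s t : V) : ℕ := ds G Λ univ {t} s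

theorem dh_le {A : Finset V} {s t : V} (hA : Conn G A) (hs : s ∈ A) (ht : t ∈ A) :
    dh G Λ s t ≤ ∑ x ∈ A, Λ x :=
  ds_le (subset_univ _) hA hs ⟨t, ht, mem_singleton_self t⟩

theorem dh_attain (hL : Conn G univ) (s t : V) :
    ∃ A : Finset V, Conn G A ∧ s ∈ A ∧ t ∈ A ∧ dh G Λ s t = ∑ x ∈ A, Λ x := by
  obtain ⟨A, _, hA, hs, ⟨r, hrA, hr⟩, he⟩ := ds_attain (G := G) (Λ := Λ) (L := univ) (R := {t})
    hL ⟨t, mem_univ _, mem_singleton_self t⟩ (mem_univ s)
  rw [mem_singleton] at hr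
  subst hr
  exact ⟨A, hA, hs, hrA, he⟩

theorem dh_comm_le (hL : Conn G univ) (s t : V) : dh G Λ s t ≤ dh G Λ t s := by
  obtain ⟨A, hA, ht, hs, he⟩ := dh_attain (Λ := Λ) hL t s
  rw [he]
  exact dh_le hA hs ht

theorem dh_comm (hL : Conn G univ) (s t : V) : dh G Λ s t = dh G Λ t s :=
  le_antisymm (dh_comm_le hL s t) (dh_comm_le hL t s)

theorem dh_triangle (hL : Conn G univ) (s u t : V) :
    dh G Λ s t ≤ dh G Λ s u + dh G Λ u t := by
  obtain ⟨A, hA, hsA, huA, he⟩ := dh_attain (Λ := Λ) hL s u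
  obtain ⟨B, hB, huB, htB, he'⟩ := dh_attain (Λ := Λ) hL u t
  have h1 : dh G Λ s t ≤ ∑ x ∈ A ∪ B, Λ x :=
    dh_le (hA.union_of_mem hB huA huB) (mem_union_left _ hsA) (mem_union_right _ htB)
  have h2 := sum_union_le' Λ A B
  omega

end

end Run7.h390
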