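import Pool.Agent.Run7.h390.Tangle

set_option autoImplicit false
set_option linter.unusedSectionVars false
set_option linter.unnecessarySimpa false

namespace Run7.h390

open Finset Classical

noncomputable section

variable {V : Type*} [Fintype V] [DecidableEq V]

/-- The data of a smallest counterexample with its metric. -/
structure Ctx (V : Type*) [Fintype V] [DecidableEq V] where
  G : SimpleGraph V
  w : V → ℝ
  X : V → ℕ
  c : ℕ
  r : ℕ
  C : ℕ
  d : ℕ
  E : ℕ
  D : ℕ
  hw : ∀ v, 0 ≤ w v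
  hX : ∀ v, 1 ≤ X v
  hC : 1 ≤ C
  hd : 1 ≤ d
  hF : ∑ v, X v * Lam G X v ≤ C * d^2
  hD : 1 + 16 * C ≤ D
  hE : 1 ≤ E
  hc : 2 * D * E ≤ c
  hr : 2 ≤ r
  hn : 0 < Fintype.card V
  iso : ∀ S Y : Finset V, (Y.card : ℝ) ≤ c * Real.sqrt (Fintype.card V) → Cov G r Y S →
    ∃ β, Big G w S β ∧ (c : ℝ) * ((univ \ β).card : ℝ) ≤
      2 * Real.sqrt (Fintype.card V) * Y.card
  hsum : (Fintype.card V)^2 * (65 * d) ≤ ∑ s, ∑ t, dh G (Lam G X) s t

namespace Ctx

variable (K : Ctx V)

/-- Neighbourhood loads. -/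
def Λ (v : V) : ℕ := Lam K.G K.X v

/-- Square root of the number of vertices. -/
def sq (_K : Ctx V) : ℝ := Real.sqrt (Fintype.card V)

/-- Centers per cut. -/
def B : ℝ := 1 + 16 * K.C

/-- The level set at `t`. -/
def lev (f : V → ℕ) (L : Finset V) (t : ℕ) : Finset V :=
  L.filter (fun u => t ≤ f u ∧ f u < t + K.Λ u)

/-- Lipschitz functions. -/
def Lip (f : V → ℕ) (L : Finset V) : Prop :=
  ∀ u ∈ L, ∀ v ∈ L, K.G.Adj u v → f u ≤ f v + K.Λ u

theorem hΛ (v : V) : 1 ≤ K.Λ v := (K.hX v).trans (le_Lam K.G K.X v)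

theorem sq_pos : 0 < K.sq := by
  rw [sq]
  apply Real.sqrt_pos.2
  exact_mod_cast K.hn

theorem sq_mul : K.sq * K.sq = Fintype.card V := Real.mul_self_sqrt (Nat.cast_nonneg _)

theorem B_le_D : K.B ≤ K.D := by
  have := K.hD
  rw [B]
  exact_mod_cast this

theorem B_pos : 0 < K.B := by
  rw [B]; positivity

theorem D_le_c : (2:ℝ) * K.D ≤ K.c := by
  have h1 := K.hc
  have h2 := K.hE
  have h3 : 2 * K.D ≤ K.c := by nlinarith
  exact_mod_cast h3

theorem c_pos : (0:ℝ) < K.c := by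
  have h1 := K.D_le_c
  have h2 := K.B_le_D
  have h3 := K.B_pos
  linarith

theorem big_of {S Y : Finset V} (hY : (Y.card : ℝ) ≤ K.D * K.sq) (hcov : Cov K.G K.r Y S) :
    ∃ β, Big K.G K.w S β ∧ K.E * (univ \ β).card ≤ Fintype.card V := by
  have hs := K.sq_pos
  have h0 : (Y.card : ℝ) ≤ K.c * Real.sqrt (Fintype.card V) := by
    refine hY.trans ?_
    apply mul_le_mul_of_nonneg_right _ hs.le
    have := K.D_le_c
    have h2 : (0:ℝ) ≤ K.D := Nat.cast_nonneg _
    linarith
  obtain ⟨β, hβ, hc⟩ := K.iso S Y h0 hcov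
  refine ⟨β, hβ, ?_⟩
  have hDpos : (0:ℝ) < K.D := K.B_pos.trans_le K.B_le_D
  have hcE : (2:ℝ) * K.D * K.E ≤ K.c := by exact_mod_cast K.hc
  have h1 : (2 * (K.D:ℝ)) * (K.E * ((univ \ β).card : ℝ)) ≤
      (2 * K.D) * (Fintype.card V : ℝ) := by
    calc (2 * (K.D:ℝ)) * (K.E * ((univ \ β).card : ℝ)) =
          (2 * K.D * K.E) * ((univ \ β).card : ℝ) := by ring
      _ ≤ K.c * ((univ \ β).card : ℝ) := by gcongr
      _ ≤ 2 * K.sq * Y.card := hc
      _ ≤ 2 * K.sq * (K.D * K.sq) := by gcongr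
      _ = (2 * K.D) * (K.sq * K.sq) := by ring
      _ = _ := by rw [K.sq_mul]
  have h2 := le_of_mul_le_mul_left h1 (by positivity)
  exact_mod_cast h2

theorem side {f : V → ℕ} {L β : Finset V} {t : ℕ} (hlip : K.Lip f L) (hβ : Conn K.G β)
    (hβL : β ⊆ L) (hdis : ∀ x ∈ β, x ∉ K.lev f L t) :
    (∀ u ∈ β, f u < t) ∨ (∀ u ∈ β, t + K.Λ u ≤ f u) := by
  have hfar : ∀ u ∈ β, ¬ f u < t → t + K.Λ u ≤ f u := by
    intro u hu h
    by_contra h2
    apply hdis u hu
    rw [lev, mem_filter]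
    exact ⟨hβL hu, by omega, by omega⟩
  by_cases h : ∃ u ∈ β, f u < t
  · left
    have key : β ⊆ univ.filter (fun u => f u < t) := by
      apply hβ.subset_of
      · obtain ⟨u, hu, h⟩ := h
        exact ⟨u, hu, by simp [h]⟩
      · intro x hx hxC y hy hxy
        rw [mem_filter] at hxC ⊢
        refine ⟨mem_univ _, ?_⟩
        by_contra h2
        have h3 := hfar y hy h2
        have h4 := hlip y (hβL hy) x (hβL hx) hxy.symm
        omega
    intro u hu
    exact (mem_filter.1 (key hu)).2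
  · right
    push Not at h
    intro u hu
    exact hfar u hu (by have := h u hu; omega)

theorem cuts {f : V → ℕ} {S Y L : Finset V} {ρ : ℕ} (hρ : 1 ≤ ρ) (hlip : K.Lip f L)
    (hcl : ∀ x ∈ L, ∀ y, K.G.Adj x y → y ∈ L ∨ y ∈ S) (hcov : Cov K.G ρ Y S) :
    ∃ Z : ℕ → Finset V, (∀ T : Finset ℕ, ((∑ t ∈ T, (Z t).card : ℕ) : ℝ) ≤
      K.B * K.sq * K.d) ∧ ∀ t, Cov K.G (ρ + 1) (Y ∪ Z t) (S ∪ K.lev f L t) := by
  obtain ⟨Z, hZ1, hZ2⟩ := cut_lemma K.G K.X K.C K.d K.hC K.hd K.hX K.hF L f hlip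
  refine ⟨Z, hZ1, ?_⟩
  intro t v hv
  rcases mem_union.1 hv with hv | hv
  · obtain ⟨x, hx, hn⟩ := hcov v hv
    exact ⟨x, mem_union_left _ hx, hn.succ⟩
  · rw [lev, mem_filter] at hv
    obtain ⟨hvL, h1, h2⟩ := hv
    by_cases hcn : cn K.G v ⊆ L
    · obtain ⟨z, hz, hn⟩ := hZ2 t v hcn h1 h2
      exact ⟨z, mem_union_right _ hz, hn.mono (by omega)⟩
    · rw [not_subset] at hcn
      obtain ⟨y, hy, hyL⟩ := hcn
      rw [mem_cn] at hy
      have hadj : K.G.Adj v y := by
        rcases hy with h | h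
        · exact absurd (h ▸ hvL) hyL
        · exact h
      have hyS : y ∈ S := by
        rcases hcl v hvL y hadj with h | h
        · exact absurd h hyL
        · exact h
      obtain ⟨x, hx, hn⟩ := hcov y hyS
      exact ⟨x, mem_union_left _ hx, y, hn, Or.inr hadj.symm⟩

theorem pick {Z : ℕ → Finset V} (hZ : ∀ T : Finset ℕ, ((∑ t ∈ T, (Z t).card : ℕ) : ℝ) ≤
      K.B * K.sq * K.d) (a : ℕ) : ∃ t, a < t ∧ t ≤ a + K.d ∧ ((Z t).card : ℝ) ≤ K.B * K.sq := by
  by_contra hcon
  push Not at hcon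
  have h1 := hZ (Ioc a (a + K.d))
  have hne : (Ioc a (a + K.d)).Nonempty := by
    rw [nonempty_Ioc]
    have := K.hd
    omega
  have h2 : ∑ t ∈ Ioc a (a + K.d), K.B * K.sq < ∑ t ∈ Ioc a (a + K.d), ((Z t).card : ℝ) := by
    apply sum_lt_sum_of_nonempty hne
    intro t ht
    rw [mem_Ioc] at ht
    exact hcon t ht.1 ht.2
  rw [sum_const, Nat.card_Ioc, nsmul_eq_mul] at h2
  push_cast at h1
  have e : ((a + K.d - a : ℕ) : ℝ) = K.d := by
    congr 1
    omega
  rw [e] at h2
  linarith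

theorem big_univ : Big K.G K.w ∅ univ := by
  obtain ⟨β, hβ, hc⟩ := K.iso ∅ ∅ (by simp; positivity) (by intro s hs; simp at hs)
  have h0 : ((univ \ β).card : ℝ) ≤ 0 := by
    by_contra h
    push Not at h
    have := mul_pos K.c_pos h
    simp only [card_empty, Nat.cast_zero, mul_zero] at hc
    linarith
  have h1 : (univ \ β).card = 0 := by
    have : (univ \ β).card ≤ 0 := by exact_mod_cast h0
    omega
  have h2 : β = univ := by
    rw [card_eq_zero, sdiff_eq_empty_iff_subset] at h1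
    exact univ_subset_iff.1 h1
  rwa [← h2]

theorem conn_univ : Conn K.G univ := K.big_univ.1

/-- Distances. -/
def dd (s t : V) : ℕ := dh K.G K.Λ s t

theorem far (x : V) :
    K.E * (univ.filter (fun v => K.dd v x < 30 * K.d)).card ≤ Fintype.card V := by
  by_contra hcon
  push Not at hcon
  set n := Fintype.card V with hn
  set f : V → ℕ := fun v => K.dd v x with hf
  have hlip : K.Lip f univ := by
    intro u hu v hv huv
    exact ds_lip K.conn_univ ⟨x, mem_univ _, mem_singleton_self x⟩ hu hv huv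
  obtain ⟨Z, hZ, hcov⟩ := K.cuts (S := ∅) (Y := ∅) (L := univ) (ρ := 1) le_rfl hlip
    (fun x _ y _ => Or.inl (mem_univ y)) (by intro s hs; simp at hs)
  simp only [empty_union] at hcov
  have hcov' : ∀ t, Cov K.G K.r (Z t) (K.lev f univ t) := fun t =>
    (hcov t).mono K.hr (Finset.Subset.refl _)
  obtain ⟨t0, ht0, ht0', hZt0⟩ := K.pick hZ (30 * K.d)
  have hs := K.sq_pos
  obtain ⟨β0, hβ0, hE0⟩ := K.big_of (hZt0.trans (by
    apply mul_le_mul_of_nonneg_right K.B_le_D hs.le)) (hcov' t0)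
  have hnear0 : ∀ u ∈ β0, f u < t0 := by
    rcases K.side hlip hβ0.1 (subset_univ _) hβ0.2.1 with h | h
    · exact h
    · exfalso
      have hsub : univ.filter (fun v => f v < 30 * K.d) ⊆ univ \ β0 := by
        intro v hv
        rw [mem_filter] at hv
        rw [mem_sdiff]
        refine ⟨mem_univ _, fun hvβ => ?_⟩
        have := h v hvβ
        omega
      have := Nat.mul_le_mul_left K.E (card_le_card hsub)
      exact absurd (this.trans hE0) (not_le.2 hcon)
  -- tail bound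
  have htail : ∀ t, t0 < t → (K.c : ℝ) * ((univ.filter (fun v => t ≤ f v)).card : ℝ) ≤
      2 * K.sq * ((Z t).card : ℝ) := by
    intro t ht
    by_cases hbig : (((Z t0 ∪ Z t).card : ℕ) : ℝ) ≤ K.c * Real.sqrt (Fintype.card V)
    · have h1 : ((Z t).card : ℝ) ≤ K.c * Real.sqrt (Fintype.card V) := by
        refine le_trans ?_ hbig
        exact_mod_cast card_le_card subset_union_right
      obtain ⟨βt, hβt, hct⟩ := K.iso _ _ h1 (hcov' t)
      obtain ⟨β2, hβ2, _⟩ := K.iso _ _ hbig ((hcov' t0).union (hcov' t))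
      obtain ⟨y, hy⟩ := hβ2.1.1
      have hy0 := big_mono K.hw hβ0 hβ2 subset_union_left hy
      have hyt := big_mono K.hw hβt hβ2 subset_union_right hy
      have hnt : ∀ u ∈ βt, f u < t := by
        rcases K.side hlip hβt.1 (subset_univ _) hβt.2.1 with h | h
        · exact h
        · exfalso
          have h2 := h y hyt
          have h3 := hnear0 y hy0
          omega
      have hsub : univ.filter (fun v => t ≤ f v) ⊆ univ \ βt := by
        intro v hv
        rw [mem_filter] at hv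
        rw [mem_sdiff]
        refine ⟨mem_univ _, fun hvβ => ?_⟩
        have := hnt v hvβ
        omega
      have hcc : ((univ.filter (fun v => t ≤ f v)).card : ℝ) ≤ ((univ \ βt).card : ℝ) := by
        exact_mod_cast card_le_card hsub
      calc (K.c : ℝ) * ((univ.filter (fun v => t ≤ f v)).card : ℝ) ≤
            K.c * ((univ \ βt).card : ℝ) := by gcongr
        _ ≤ _ := hct
    · push Not at hbig
      have h1 : (((Z t0 ∪ Z t).card : ℕ) : ℝ) ≤ (Z t0).card + (Z t).card := by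
        exact_mod_cast card_union_le _ _
      have h2 : K.c * K.sq < (Z t0).card + (Z t).card := hbig.trans_le h1
      have h3 : (K.c:ℝ) * K.sq ≤ 2 * (Z t).card := by
        have e1 := K.D_le_c
        have e2 := K.B_le_D
        have e3 : 2 * K.B * K.sq ≤ K.c * K.sq := by
          apply mul_le_mul_of_nonneg_right _ hs.le
          linarith
        linarith
      have h4 : ((univ.filter (fun v => t ≤ f v)).card : ℝ) ≤ K.sq * K.sq := by
        rw [K.sq_mul]
        exact_mod_cast card_le_univ _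
      have hcp := K.c_pos
      calc (K.c : ℝ) * ((univ.filter (fun v => t ≤ f v)).card : ℝ) ≤
            K.c * (K.sq * K.sq) := by gcongr
        _ = K.sq * (K.c * K.sq) := by ring
        _ ≤ K.sq * (2 * (Z t).card) := by gcongr
        _ = _ := by ring
  -- sum of f
  set M := ∑ v, f v with hM
  have hle : ∀ v, f v ≤ M := fun v =>
    single_le_sum (f := f) (fun _ _ => Nat.zero_le _) (mem_univ v)
  have hfv : ∀ v, f v ≤ t0 + ((Ioc t0 M).filter (fun t => t ≤ f v)).card := by
    intro v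
    have h1 : Ioc t0 (f v) ⊆ (Ioc t0 M).filter (fun t => t ≤ f v) := by
      intro t ht
      rw [mem_Ioc] at ht
      rw [mem_filter, mem_Ioc]
      exact ⟨⟨ht.1, ht.2.trans (hle v)⟩, ht.2⟩
    have h2 := card_le_card h1
    rw [Nat.card_Ioc] at h2
    omega
  have hS1 : M ≤ n * t0 + ∑ t ∈ Ioc t0 M, (univ.filter (fun v => t ≤ f v)).card := by
    have e : ∑ v : V, ((Ioc t0 M).filter (fun t => t ≤ f v)).card =
        ∑ t ∈ Ioc t0 M, (univ.filter (fun v => t ≤ f v)).card := by
      simp only [card_filter]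
      rw [sum_comm]
    calc M ≤ ∑ v : V, (t0 + ((Ioc t0 M).filter (fun t => t ≤ f v)).card) :=
          sum_le_sum (fun v _ => hfv v)
      _ = n * t0 + ∑ v : V, ((Ioc t0 M).filter (fun t => t ≤ f v)).card := by
          rw [sum_add_distrib, sum_const, card_univ, smul_eq_mul]
      _ = _ := by rw [e]
  have hS2 : (K.c : ℝ) * M ≤ K.c * (32 * (n * K.d)) := by
    have h1 : (M : ℝ) ≤ n * t0 + ∑ t ∈ Ioc t0 M, ((univ.filter (fun v => t ≤ f v)).card : ℝ) := by
      exact_mod_cast hS1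
    have h2 : (K.c : ℝ) * ∑ t ∈ Ioc t0 M, ((univ.filter (fun v => t ≤ f v)).card : ℝ) ≤
        2 * K.sq * (K.B * K.sq * K.d) := by
      rw [mul_sum]
      calc ∑ t ∈ Ioc t0 M, (K.c : ℝ) * ((univ.filter (fun v => t ≤ f v)).card : ℝ) ≤
            ∑ t ∈ Ioc t0 M, 2 * K.sq * ((Z t).card : ℝ) := by
              apply sum_le_sum
              intro t ht
              exact htail t (mem_Ioc.1 ht).1
        _ = 2 * K.sq * ((∑ t ∈ Ioc t0 M, (Z t).card : ℕ) : ℝ) := by
              push_cast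
              rw [← mul_sum]
        _ ≤ _ := by
              have := hZ (Ioc t0 M)
              gcongr
    have h3 : (t0 : ℝ) ≤ 31 * K.d := by
      have : t0 ≤ 31 * K.d := by omega
      exact_mod_cast this
    have hcp := K.c_pos
    have hBc : 2 * K.B ≤ K.c := by
      have e1 := K.D_le_c
      have e2 := K.B_le_D
      linarith
    have hsm := K.sq_mul
    calc (K.c : ℝ) * M ≤ K.c * (n * t0 + ∑ t ∈ Ioc t0 M,
          ((univ.filter (fun v => t ≤ f v)).card : ℝ)) := by gcongr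
      _ = K.c * (n * t0) + K.c * ∑ t ∈ Ioc t0 M,
          ((univ.filter (fun v => t ≤ f v)).card : ℝ) := by ring
      _ ≤ K.c * (n * (31 * K.d)) + 2 * K.sq * (K.B * K.sq * K.d) := by gcongr
      _ = K.c * (n * (31 * K.d)) + (2 * K.B) * ((K.sq * K.sq) * K.d) := by ring
      _ = K.c * (n * (31 * K.d)) + (2 * K.B) * (n * K.d) := by rw [hsm]
      _ ≤ K.c * (n * (31 * K.d)) + K.c * (n * K.d) := by gcongr
      _ = _ := by ring
  have hS3 : M ≤ 32 * (n * K.d) := by
    have := le_of_mul_le_mul_left hS2 K.c_pos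
    exact_mod_cast this
  have hS4 : n^2 * (65 * K.d) ≤ 2 * (n * M) := by
    calc n^2 * (65 * K.d) ≤ ∑ s, ∑ t, dh K.G (Lam K.G K.X) s t := K.hsum
      _ ≤ ∑ s : V, ∑ t : V, (f s + f t) := by
          apply sum_le_sum
          intro s _
          apply sum_le_sum
          intro t _
          have h1 := dh_triangle (Λ := Lam K.G K.X) K.conn_univ s x t
          have h2 := dh_comm (Λ := Lam K.G K.X) K.conn_univ x t
          calc dh K.G (Lam K.G K.X) s t ≤ _ := h1
            _ = f s + f t := by rw [h2]; rfl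
      _ = _ := by
          simp only [sum_add_distrib, sum_const, card_univ, smul_eq_mul, ← mul_sum]
          rw [← hM, ← hn]
          ring
  have hnpos := K.hn
  have hdpos := K.hd
  have h5 : n^2 * (65 * K.d) ≤ n^2 * (64 * K.d) := by
    calc n^2 * (65 * K.d) ≤ 2 * (n * M) := hS4
      _ ≤ 2 * (n * (32 * (n * K.d))) := by gcongr
      _ = _ := by ring
  have h6 := Nat.le_of_mul_le_mul_left h5 (by positivity)
  omega

theorem conc {f : V → ℕ} {S Y L : Finset V} {ρ : ℕ} (hρ : 1 ≤ ρ) (hρr : ρ + 1 ≤ K.r)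
    (hlip : K.Lip f L) (hL : Big K.G K.w S L) (hcov : Cov K.G ρ Y S)
    (hY : (Y.card : ℝ) + K.B * K.sq ≤ K.D * K.sq) :
    ∃ k : ℕ, K.E * (univ.filter (fun v => ¬ (v ∈ L ∧ k * K.d < f v + K.d ∧
      f v < (k + 1) * K.d))).card ≤ 2 * Fintype.card V := by
  obtain ⟨Z, hZ, hcovZ⟩ := K.cuts hρ hlip hL.2.2.1 hcov
  have hstep : ∀ j : ℕ, ∃ t β, j * K.d < t ∧ t ≤ j * K.d + K.d ∧
      Big K.G K.w (S ∪ K.lev f L t) β ∧ K.E * (univ \ β).card ≤ Fintype.card V := by
    intro j
    obtain ⟨t, ht1, ht2, hZt⟩ := K.pick hZ (j * K.d)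
    obtain ⟨β, hβ, hE⟩ := K.big_of (S := S ∪ K.lev f L t) (Y := Y ∪ Z t) (by
      have h1 : (((Y ∪ Z t).card : ℕ) : ℝ) ≤ Y.card + (Z t).card := by
        exact_mod_cast card_union_le _ _
      linarith) ((hcovZ t).mono hρr (Finset.Subset.refl _))
    exact ⟨t, β, ht1, ht2, hβ, hE⟩
  choose t β ht1 ht2 hβ hE using hstep
  have hβL : ∀ j, β j ⊆ L := fun j => big_mono K.hw hL (hβ j) subset_union_left
  have hside : ∀ j, (∀ u ∈ β j, f u < t j) ∨ (∀ u ∈ β j, t j + K.Λ u ≤ f u) := fun j =>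
    K.side hlip (hβ j).1 (hβL j) (fun x hx hx' => (hβ j).2.1 x hx (mem_union_right _ hx'))
  have hex : ∃ j, ∀ u ∈ β j, f u < t j := by
    refine ⟨∑ v, f v, ?_⟩
    intro u _
    have h1 : f u ≤ ∑ v, f v := single_le_sum (f := f) (fun _ _ => Nat.zero_le _) (mem_univ u)
    have h2 := ht1 (∑ v, f v)
    have h3 := K.hd
    nlinarith
  set k := Nat.find hex with hk
  have hk1 : ∀ u ∈ β k, f u < t k := Nat.find_spec hex
  refine ⟨k, ?_⟩
  have hn2 := ht2 k
  by_cases hk0 : k = 0
  · have hsub : univ.filter (fun v => ¬ (v ∈ L ∧ k * K.d < f v + K.d ∧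
      f v < (k + 1) * K.d)) ⊆ univ \ β k := by
      intro v hv
      rw [mem_filter] at hv
      rw [mem_sdiff]
      refine ⟨mem_univ _, fun hvβ => hv.2 ⟨hβL k hvβ, ?_, ?_⟩⟩
      · rw [hk0]
        have := K.hd
        omega
      · have := hk1 v hvβ
        rw [add_mul, one_mul]
        omega
    have h1 := Nat.mul_le_mul_left K.E (card_le_card hsub)
    have h2 := hE k
    omega
  · obtain ⟨j, hj⟩ : ∃ j, k = j + 1 := ⟨k - 1, by omega⟩
    have hjlt : j < k := by omega
    have hj1 : ∀ u ∈ β j, t j + K.Λ u ≤ f u := by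
      rcases hside j with h | h
      · exact absurd h (Nat.find_min hex hjlt)
      · exact h
    have hsub : univ.filter (fun v => ¬ (v ∈ L ∧ k * K.d < f v + K.d ∧
      f v < (k + 1) * K.d)) ⊆ (univ \ β k) ∪ (univ \ β j) := by
      intro v hv
      rw [mem_filter] at hv
      by_contra hcon
      rw [mem_union, mem_sdiff, mem_sdiff] at hcon
      have hvk : v ∈ β k := by
        by_contra h
        exact hcon (Or.inl ⟨mem_univ _, h⟩)
      have hvj : v ∈ β j := by
        by_contra h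
        exact hcon (Or.inr ⟨mem_univ _, h⟩)
      apply hv.2
      refine ⟨hβL k hvk, ?_, ?_⟩
      · have h1 := hj1 v hvj
        have h2 := ht1 j
        have h3 : k * K.d = j * K.d + K.d := by rw [hj]; ring
        omega
      · have := hk1 v hvk
        rw [add_mul, one_mul]
        omega
    have h1 := Nat.mul_le_mul_left K.E ((card_le_card hsub).trans (card_union_le _ _))
    rw [mul_add] at h1
    have h2 := hE k
    have h3 := hE j
    omega

end Ctx

end

end Run7.h390
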