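import Pool.Agent.Run7.h390.Assemble

set_option autoImplicit false
set_option linter.unusedSectionVars false
set_option linter.unnecessarySimpa false

namespace Run7.h390

open Finset Classical

noncomputable section

/-- Load constant. -/
def cC (h : ℕ) : ℕ := CC h 65 + 1

/-- Natural-number version of the budget. -/
def qN (C : ℕ) : ℕ → ℕ
  | 0 => C
  | (i+1) => 3 * qN C i + 2 * (1 + 16 * C)

/-- Total budget. -/
def cD (h : ℕ) : ℕ := qN (cC h) h + (1 + 16 * cC h)

/-- Smallness constant. -/
def cE (h : ℕ) : ℕ := 5 + 2 * h + h * h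

/-- The final constant. -/
def cc (h : ℕ) : ℕ := 2 * cD h * cE h + 65

theorem qb_eq {V : Type*} [Fintype V] [DecidableEq V] (K : Ctx V) (i : ℕ) :
    K.qb i = (qN K.C i : ℝ) := by
  induction i with
  | zero => rfl
  | succ i ih =>
    rw [Ctx.qb, qN, ih, Ctx.B]
    push_cast
    ring

theorem main_aux (h : ℕ) (H : SimpleGraph (Fin h)) : ∀ n : ℕ, ∀ (V : Type) [Fintype V]
    [DecidableEq V] (G : SimpleGraph V), Fintype.card V = n → HFree H G →
    Good G (cc h) (h + 2) := by
  intro n
  induction n using Nat.strong_induction_on with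
  | _ n ih =>
  intro V _ _ G hn hfree
  by_contra hG
  rw [Good] at hG
  push Not at hG
  obtain ⟨w, hw, hctr⟩ := hG
  set c := cc h with hc
  have hcpos : 0 < c := by rw [hc, cc]; omega
  have hnat : (c : ℝ) * Real.sqrt (Fintype.card V) < Fintype.card V := by
    by_contra hcon
    push Not at hcon
    obtain ⟨T, hT1, hT2, _⟩ := hctr univ univ (by rw [card_univ]; exact hcon)
      (fun s _ => ⟨s, mem_univ _, near_refl G _ s⟩)
    obtain ⟨t, ht⟩ := hT2.1
    exact hT1 t ht (mem_univ t)
  have hnc : c < Fintype.card V := by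
    have hs0 : 0 ≤ Real.sqrt (Fintype.card V) := Real.sqrt_nonneg _
    have hs2 : Real.sqrt (Fintype.card V) * Real.sqrt (Fintype.card V) = Fintype.card V :=
      Real.mul_self_sqrt (Nat.cast_nonneg _)
    have hc1 : (1:ℝ) ≤ c := by exact_mod_cast hcpos
    have h1 : (c : ℝ) < Real.sqrt (Fintype.card V) := by
      by_contra hle
      push Not at hle
      nlinarith
    have h2 : (c : ℝ) < (Fintype.card V : ℝ) := by nlinarith
    exact_mod_cast h2
  have hn65 : 65 ≤ Fintype.card V := by
    have : 65 ≤ c := by rw [hc, cc]; omega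
    omega
  have hctr' : ∀ S Y : Finset V, (Y.card : ℝ) ≤ c * Real.sqrt (Fintype.card V) →
      Cov G (h + 2) Y S →
      ∃ T : Finset V, (∀ x ∈ T, x ∉ S) ∧ Conn G T ∧ (∑ v, w v) / 2 < ∑ v ∈ T, w v := by
    intro S Y h1 h2
    obtain ⟨T, a1, a2, a3⟩ := hctr S Y h1 h2
    exact ⟨T, a1, a2, a3⟩
  have IH : ∀ β : Finset V, β.card < Fintype.card V → Good (rs G β) c (h + 2) := by
    intro β hβ
    exact ih β.card (by omega) {x // x ∈ β} (rs G β) (Fintype.card_coe β) (hfree_rs hfree)
  have iso := iso_lemma G w hw c (h + 2) hcpos hctr' IH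
  have hconn : Conn G univ := by
    obtain ⟨β, hβ, hcβ⟩ := iso ∅ ∅ (by simp; positivity) (by intro s hs; simp at hs)
    have h0 : ((univ \ β).card : ℝ) ≤ 0 := by
      by_contra hcon
      push Not at hcon
      have hcp : (0:ℝ) < c := by exact_mod_cast hcpos
      have := mul_pos hcp hcon
      simp only [card_empty, Nat.cast_zero, mul_zero] at hcβ
      linarith
    have h1 : (univ \ β).card = 0 := by
      have : (univ \ β).card ≤ 0 := by exact_mod_cast h0
      omega
    have h2 : β = univ := by
      rw [card_eq_zero, sdiff_eq_empty_iff_subset] at h1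
      exact univ_subset_iff.1 h1
    rw [← h2]
    exact hβ.1
  obtain ⟨X, d, hd, hX, hF, hsum⟩ := metric_lemma h 65 (by norm_num) H G hconn hn65 hfree
  let K : Ctx V :=
    { G := G
      w := w
      X := X
      c := c
      r := h + 2
      C := cC h
      d := d
      E := cE h
      D := cD h
      hw := hw
      hX := hX
      hC := by rw [cC]; omega
      hd := hd
      hF := hF.trans (Nat.mul_le_mul_right _ (by rw [cC]; omega))
      hD := by rw [cD]; omega
      hE := by rw [cE]; omega
      hc := by rw [hc, cc]; omega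
      hr := by omega
      hn := by omega
      iso := iso
      hsum := hsum }
  refine K.contra H hfree le_rfl ?_ ?_
  · rw [qb_eq]
    have : qN (cC h) h ≤ cD h := by rw [cD]; omega
    exact_mod_cast this
  · show 5 + 2 * h + h * h ≤ cE h
    rw [cE]

end

end Run7.h390
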