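import Pool.Agent.Run7.h390.Paths

set_option autoImplicit false
set_option linter.unusedSectionVars false
set_option linter.unnecessarySimpa false

namespace Run7.h390

open Finset Classical

noncomputable section

variable {V : Type*} [Fintype V] [DecidableEq V]

/-- The constant of the metric lemma. -/
def CC (h N0 : ℕ) : ℕ := 16 * (h + h * h)^4 * N0^2

theorem le_Lam (G : SimpleGraph V) (X : V → ℕ) (v : V) : X v ≤ Lam G X v :=
  Finset.single_le_sum (f := X) (fun _ _ => Nat.zero_le _) (self_mem_cn G v)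

theorem metric_lemma (h N0 : ℕ) (hN0 : 1 ≤ N0) (H : SimpleGraph (Fin h)) (G : SimpleGraph V)
    (hG : Conn G univ) (hn : N0 ≤ Fintype.card V) (hfree : HFree H G) :
    ∃ (X : V → ℕ) (d : ℕ), 1 ≤ d ∧ (∀ v, 1 ≤ X v) ∧
      (∑ v, X v * Lam G X v ≤ CC h N0 * d^2) ∧
      (Fintype.card V)^2 * (N0 * d) ≤ ∑ s, ∑ t, dh G (Lam G X) s t := by
  set q := (h + h * h)^4 with hq
  set K := 2 * q + 1 with hK
  set n := Fintype.card V with hnn
  obtain ⟨P, hP, hmin⟩ := exists_min (U := V × Fin K) G hG Prod.fst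
  set X := XP P with hX
  set F := FP G P with hF
  set m := Fintype.card (V × Fin K) with hm
  have hmn : m = n * K := by rw [hm, Fintype.card_prod, Fintype.card_fin]
  have hnpos : 0 < n := by omega
  have hmpos : 0 < m := by rw [hmn]; positivity
  have h1 : m^4 ≤ q * F := (touch_ge H G hfree Prod.fst P hP).trans
    (Nat.mul_le_mul_left _ (touch_le G P))
  set D := ∑ s, ∑ t, dh G (Lam G X) s t with hD
  have h2 : F ≤ K^2 * D + m^2 * n^2 := by
    rw [hF, FP_eq]
    calc ∑ p, ∑ v ∈ P p, Lam G (XP P) v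
        ≤ ∑ p : (V × Fin K) × (V × Fin K), (dh G (Lam G X) p.1.1 p.2.1 + n^2) := by
          apply sum_le_sum
          intro p _
          obtain ⟨A, hA, hs, ht, he⟩ := dh_attain (Λ := Lam G X) hG p.1.1 p.2.1
          rw [he]
          exact exchange G Prod.fst P hP hmin p A hA hs ht
      _ = _ := by
          rw [sum_add_distrib, sum_const, card_univ, Fintype.card_prod, ← hm]
          congr 1
          · simp only [Fintype.sum_prod_type, sum_const, card_univ, Fintype.card_fin,
              smul_eq_mul, ← mul_sum]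
            rw [hD]; ring
          · rw [smul_eq_mul]; ring
  have hqpos : 0 < q := by
    by_contra h0
    have : q = 0 := by omega
    rw [this, zero_mul] at h1
    have : 0 < m^4 := by positivity
    omega
  have hK2 : 2 * q ≤ K^2 := by rw [hK]; nlinarith
  have h3 : 2 * (m^2 * n^2) ≤ F := by
    have e : q * (2 * (m^2 * n^2)) ≤ q * F := by
      calc q * (2 * (m^2 * n^2)) = (2 * q) * (m^2 * n^2) := by ring
        _ ≤ K^2 * (m^2 * n^2) := Nat.mul_le_mul_right _ hK2
        _ = m^2 * (n * K)^2 := by ring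
        _ = m^4 := by rw [← hmn]; ring
        _ ≤ _ := h1
    exact Nat.le_of_mul_le_mul_left e hqpos
  have h4 : F ≤ 2 * (K^2 * D) := by omega
  have hden : 0 < 2 * m^2 * N0 := by positivity
  set d := F / (2 * m^2 * N0) with hd
  have hd1 : 1 ≤ d := by
    rw [hd, Nat.one_le_div_iff hden]
    calc 2 * m^2 * N0 ≤ 2 * m^2 * n^2 := by
          apply Nat.mul_le_mul_left
          nlinarith
      _ = 2 * (m^2 * n^2) := by ring
      _ ≤ F := h3
  have h5 : 2 * m^2 * N0 * d ≤ F := Nat.mul_div_le F _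
  have h6 : F < 2 * m^2 * N0 * (d + 1) := Nat.lt_mul_div_succ F hden
  have h7 : F ≤ 4 * m^2 * N0 * d := by nlinarith
  have h8 : m^2 ≤ 4 * q * N0 * d := by
    have e : m^2 * m^2 ≤ m^2 * (4 * q * N0 * d) := by
      calc m^2 * m^2 = m^4 := by ring
        _ ≤ q * F := h1
        _ ≤ q * (4 * m^2 * N0 * d) := Nat.mul_le_mul_left _ h7
        _ = _ := by ring
    exact Nat.le_of_mul_le_mul_left e (by positivity)
  refine ⟨X, d, hd1, ?_, ?_, ?_⟩
  · intro v
    have hKpos : 0 < K := by omega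
    have : (if v ∈ P ((v, ⟨0, hKpos⟩), (v, ⟨0, hKpos⟩)) then 1 else 0) ≤ X v := by
      rw [hX, XP]
      exact single_le_sum (f := fun p => if v ∈ P p then 1 else 0)
        (fun _ _ => Nat.zero_le _) (mem_univ _)
    rw [if_pos (hP ((v, ⟨0, hKpos⟩), (v, ⟨0, hKpos⟩))).2.1] at this
    exact this
  · calc ∑ v, X v * Lam G X v = F := rfl
      _ ≤ 4 * m^2 * N0 * d := h7
      _ = (4 * N0 * d) * m^2 := by ring
      _ ≤ (4 * N0 * d) * (4 * q * N0 * d) := Nat.mul_le_mul_left _ h8
      _ = _ := by rw [CC, ← hq]; ring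
  · have e : (2 * K^2) * (n^2 * (N0 * d)) ≤ (2 * K^2) * D := by
      calc (2 * K^2) * (n^2 * (N0 * d)) = 2 * (n * K)^2 * N0 * d := by ring
        _ = 2 * m^2 * N0 * d := by rw [← hmn]
        _ ≤ F := h5
        _ ≤ 2 * (K^2 * D) := h4
        _ = _ := by ring
    exact Nat.le_of_mul_le_mul_left e (by positivity)

end

end Run7.h390
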