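import Pool.Agent.Run7.h390.Basic

set_option autoImplicit false
set_option linter.unusedSectionVars false
set_option linter.unnecessarySimpa false

namespace Run7.h390

open Finset Classical

noncomputable section

variable {V : Type*} [Fintype V] [DecidableEq V]

/-- A fat configuration yields an induced minor. -/
theorem model_lemma {ι : Type*} [LinearOrder ι] [Fintype ι] (H : SimpleGraph ι)
    (G : SimpleGraph V) (B : ι → Finset V) (P : ι → ι → Finset V)
    (hB : ∀ a, Conn G (B a))
    (hBB : ∀ a b, a ≠ b → NT G (B a) (B b))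
    (hP : ∀ a b, a < b → Conn G (P a b))
    (hPa : ∀ a b, a < b → ∃ x ∈ P a b, ∃ y ∈ B a, x = y ∨ G.Adj x y)
    (hPb : ∀ a b, a < b → ∃ x ∈ P a b, ∃ y ∈ B b, x = y ∨ G.Adj x y)
    (hPB : ∀ a b c, a < b → c ≠ a → c ≠ b → NT G (P a b) (B c))
    (hPP : ∀ a b c d, a < b → c < d → (a ≠ c ∨ b ≠ d) → NT G (P a b) (P c d)) :
    ¬ HFree H G := by
  intro hfree
  apply hfree
  have hpt : ∀ a, ∃ v, v ∈ B a := fun a => (hB a).1
  choose pt hpt using hpt
  have hdisj : ∀ a b, a ≠ b → ∀ x ∈ B a, x ∉ B b := fun a b hab x hx hx' =>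
    (hBB a b hab x hx x hx').1 rfl
  set K : ι → ι → Finset V := fun a b => comp G ((B a ∪ P a b) \ B b) (pt a) with hK
  have hptD : ∀ a b, a < b → pt a ∈ (B a ∪ P a b) \ B b := by
    intro a b hab
    rw [mem_sdiff]
    exact ⟨mem_union_left _ (hpt a), hdisj a b hab.ne _ (hpt a)⟩
  have hKconn : ∀ a b, a < b → Conn G (K a b) := fun a b hab => conn_comp (hptD a b hab)
  have hBK : ∀ a b, a < b → B a ⊆ K a b := by
    intro a b hab
    apply subset_comp _ (hB a) (hpt a)
    intro x hx
    rw [mem_sdiff]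
    exact ⟨mem_union_left _ hx, hdisj a b hab.ne _ hx⟩
  have hKtouch : ∀ a b, a < b → ∃ x ∈ K a b, ∃ y ∈ B b, G.Adj x y := by
    intro a b hab
    have hD : Conn G (B a ∪ P a b ∪ B b) := by
      apply Conn.union
      · apply (hB a).union (hP a b hab)
        obtain ⟨x, hx, y, hy, hxy⟩ := hPa a b hab
        exact ⟨y, hy, x, hx, hxy.imp Eq.symm (fun h => h.symm)⟩
      · exact hB b
      · obtain ⟨x, hx, y, hy, hxy⟩ := hPb a b hab
        exact ⟨x, mem_union_right _ hx, y, hy, hxy⟩
    obtain ⟨x, _, hxK, y, hy, hyK, hxy⟩ := hD.exit (C := K a b)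
      ⟨pt a, mem_union_left _ (mem_union_left _ (hpt a)), hBK a b hab (hpt a)⟩
      ⟨pt b, mem_union_right _ (hpt b), by
        intro h
        have := comp_subset _ _ _ h
        rw [mem_sdiff] at this
        exact this.2 (hpt b)⟩
    by_cases hyB : y ∈ B b
    · exact ⟨x, hxK, y, hyB, hxy⟩
    · exfalso
      apply hyK
      apply comp_closed (hptD a b hab) hxK _ hxy
      rw [mem_sdiff]
      refine ⟨?_, hyB⟩
      rcases mem_union.1 hy with h | h
      · exact h
      · exact absurd h hyB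
  set K' : ι → ι → Finset V := fun a b => if a < b ∧ H.Adj a b then K a b else B a with hK'
  have hK'conn : ∀ a b, Conn G (K' a b) := by
    intro a b
    by_cases h : a < b ∧ H.Adj a b
    · simp only [hK', h, and_self, if_true]; exact hKconn a b h.1
    · simp only [hK', h, if_false]; exact hB a
  have hBK' : ∀ a b, B a ⊆ K' a b := by
    intro a b
    by_cases h : a < b ∧ H.Adj a b
    · simp only [hK', h, and_self, if_true]; exact hBK a b h.1
    · simp only [hK', h, if_false]; exact Finset.Subset.refl _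
  have hmemK' : ∀ a b x, x ∈ K' a b → x ∈ B a ∨ (a < b ∧ H.Adj a b ∧ x ∈ P a b ∧ x ∉ B b) := by
    intro a b x hx
    by_cases h : a < b ∧ H.Adj a b
    · simp only [hK', h, and_self, if_true] at hx
      have := comp_subset _ _ _ hx
      rw [mem_sdiff, mem_union] at this
      rcases this.1 with h' | h'
      · exact Or.inl h'
      · exact Or.inr ⟨h.1, h.2, h', this.2⟩
    · simp only [hK', h, if_false] at hx
      exact Or.inl hx
  have key : ∀ a b, a < b → ∀ x ∈ univ.biUnion (K' a), ∀ y ∈ univ.biUnion (K' b),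
      (x = y ∨ G.Adj x y) → H.Adj a b ∧ x ≠ y := by
    intro a b hab x hx y hy hxy
    rw [mem_biUnion] at hx hy
    obtain ⟨c, _, hx⟩ := hx
    obtain ⟨c', _, hy⟩ := hy
    have nt : ∀ A C : Finset V, NT G A C → x ∈ A → y ∈ C → False := by
      intro A C hAC hxA hyC
      have := hAC x hxA y hyC
      rcases hxy with h | h
      · exact this.1 h
      · exact this.2 h
    rcases hmemK' a c x hx with hx1 | ⟨hac, hadj, hxP, hxB⟩
    · rcases hmemK' b c' y hy with hy1 | ⟨hbc, _, hyP, _⟩
      · exact (nt _ _ (hBB a b hab.ne) hx1 hy1).elim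
      · exact (nt _ _ (hPB b c' a hbc hab.ne (hab.trans hbc).ne).symm hx1 hyP).elim
    · rcases hmemK' b c' y hy with hy1 | ⟨hbc, _, hyP, _⟩
      · by_cases hcb : c = b
        · subst hcb
          refine ⟨hadj, ?_⟩
          intro h
          subst h
          exact hxB hy1
        · exact (nt _ _ (hPB a c b hac hab.ne' (fun h => hcb h.symm)) hxP hy1).elim
      · exact (nt _ _ (hPP a c b c' hac hbc (Or.inl hab.ne)) hxP hyP).elim
  have kadj : ∀ a b, a < b → H.Adj a b → ∃ x ∈ univ.biUnion (K' a), ∃ y ∈ univ.biUnion (K' b),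
      G.Adj x y := by
    intro a b hab hadj
    obtain ⟨x, hx, y, hy, hxy⟩ := hKtouch a b hab
    refine ⟨x, ?_, y, ?_, hxy⟩
    · rw [mem_biUnion]
      exact ⟨b, mem_univ _, by simp only [hK', hab, hadj, and_self, if_true]; exact hx⟩
    · rw [mem_biUnion]
      exact ⟨b, mem_univ _, hBK' b b hy⟩
  refine ⟨fun a => univ.biUnion (K' a), ?_, ?_, ?_⟩
  · intro a
    exact conn_biUnion _ _ (pt a) ⟨a, mem_univ _⟩ (fun i _ => hK'conn a i)
      (fun i _ => hBK' a i (hpt a))
  · intro a b hab
    rw [Finset.disjoint_left]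
    intro x hxa hxb
    rcases lt_or_gt_of_ne hab with h | h
    · exact (key a b h x hxa x hxb (Or.inl rfl)).2 rfl
    · exact (key b a h x hxb x hxa (Or.inl rfl)).2 rfl
  · intro a b hab
    constructor
    · intro hadj
      rcases lt_or_gt_of_ne hab with h | h
      · exact kadj a b h hadj
      · obtain ⟨x, hx, y, hy, hxy⟩ := kadj b a h hadj.symm
        exact ⟨y, hy, x, hx, hxy.symm⟩
    · rintro ⟨x, hx, y, hy, hxy⟩
      rcases lt_or_gt_of_ne hab with h | h
      · exact (key a b h x hx y hy (Or.inr hxy)).1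
      · exact (key b a h y hy x hx (Or.inr hxy.symm)).1.symm

end

end Run7.h390
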