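import Pool.Agent.Run7.h390.Model
import Pool.Agent.Run7.h390.Dist

set_option autoImplicit false
set_option linter.unusedSectionVars false
set_option linter.unnecessarySimpa false

namespace Run7.h390

open Finset Classical

noncomputable section

theorem sampling {I U : Type*} [Fintype I] [DecidableEq I] [Fintype U] [DecidableEq U]
    (Q : U → U → U → U → Prop) [∀ a b c d, Decidable (Q a b c d)]
    (h : (Fintype.card I)^4 * (univ.filter (fun q : U × U × U × U =>
      Q q.1 q.2.1 q.2.2.1 q.2.2.2)).card < (Fintype.card U)^4) :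
    ∃ s : I → U, ∀ i j k l : I, i ≠ j → i ≠ k → i ≠ l → j ≠ k → j ≠ l → k ≠ l →
      ¬ Q (s i) (s j) (s k) (s l) := by
  by_contra hcon
  push Not at hcon
  set N := (univ.filter (fun q : U × U × U × U => Q q.1 q.2.1 q.2.2.1 q.2.2.2)) with hN
  have hUpos : 0 < Fintype.card U := by
    by_contra h0
    have : Fintype.card U = 0 := by omega
    rw [this] at h
    simp at h
  have key : ∀ i j k l : I, i ≠ j → i ≠ k → i ≠ l → j ≠ k → j ≠ l → k ≠ l →
      (univ.filter (fun s : I → U => Q (s i) (s j) (s k) (s l))).card * (Fintype.card U)^4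
        ≤ Fintype.card (I → U) * N.card := by
    intro i j k l hij hik hil hjk hjl hkl
    have e1 : (univ.filter (fun s : I → U => Q (s i) (s j) (s k) (s l))).card *
        (Fintype.card U)^4 = ((univ.filter (fun s : I → U => Q (s i) (s j) (s k) (s l))) ×ˢ
          (univ : Finset (U × U × U × U))).card := by
      rw [card_product, card_univ]
      simp only [Fintype.card_prod]
      ring
    have e2 : Fintype.card (I → U) * N.card = ((univ : Finset (I → U)) ×ˢ N).card := by
      rw [card_product, card_univ]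
    rw [e1, e2]
    apply card_le_card_of_injOn (fun p : (I → U) × (U × U × U × U) =>
      ((fun m => if m = i then p.2.1 else if m = j then p.2.2.1 else if m = k then p.2.2.2.1
        else if m = l then p.2.2.2.2 else p.1 m), (p.1 i, p.1 j, p.1 k, p.1 l)))
    · intro p hp
      rw [mem_coe, mem_product, mem_filter] at hp
      rw [mem_coe, mem_product, hN, mem_filter]
      exact ⟨mem_univ _, mem_univ _, hp.1.2⟩
    · rintro ⟨s, x⟩ _ ⟨s', x'⟩ _ heq
      simp only [Prod.mk.injEq] at heq
      obtain ⟨hf, h1, h2, h3, h4⟩ := heq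
      have hm : ∀ m, (if m = i then x.1 else if m = j then x.2.1 else if m = k then x.2.2.1
        else if m = l then x.2.2.2 else s m) = (if m = i then x'.1 else if m = j then x'.2.1
        else if m = k then x'.2.2.1 else if m = l then x'.2.2.2 else s' m) := fun m =>
          congrFun hf m
      have hx1 : x.1 = x'.1 := by simpa using hm i
      have hx2 : x.2.1 = x'.2.1 := by simpa [hij.symm] using hm j
      have hx3 : x.2.2.1 = x'.2.2.1 := by simpa [hik.symm, hjk.symm] using hm k
      have hx4 : x.2.2.2 = x'.2.2.2 := by simpa [hil.symm, hjl.symm, hkl.symm] using hm l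
      have hs : s = s' := by
        funext m
        by_cases m1 : m = i
        · rw [m1]; exact h1
        by_cases m2 : m = j
        · rw [m2]; exact h2
        by_cases m3 : m = k
        · rw [m3]; exact h3
        by_cases m4 : m = l
        · rw [m4]; exact h4
        simpa [m1, m2, m3, m4] using hm m
      rw [hs]
      congr 1
      ext
      · exact hx1
      · exact hx2
      · exact hx3
      · exact hx4
  -- union bound
  set D := (univ.filter (fun z : I × I × I × I => z.1 ≠ z.2.1 ∧ z.1 ≠ z.2.2.1 ∧ z.1 ≠ z.2.2.2 ∧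
    z.2.1 ≠ z.2.2.1 ∧ z.2.1 ≠ z.2.2.2 ∧ z.2.2.1 ≠ z.2.2.2)) with hD
  have hcov : (univ : Finset (I → U)) ⊆ D.biUnion (fun z =>
      univ.filter (fun s : I → U => Q (s z.1) (s z.2.1) (s z.2.2.1) (s z.2.2.2))) := by
    intro s _
    obtain ⟨i, j, k, l, h1, h2, h3, h4, h5, h6, hq⟩ := hcon s
    rw [mem_biUnion]
    refine ⟨(i, j, k, l), ?_, ?_⟩
    · rw [hD, mem_filter]; exact ⟨mem_univ _, h1, h2, h3, h4, h5, h6⟩
    · rw [mem_filter]; exact ⟨mem_univ _, hq⟩
  have h1 : Fintype.card (I → U) ≤ ∑ z ∈ D,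
      (univ.filter (fun s : I → U => Q (s z.1) (s z.2.1) (s z.2.2.1) (s z.2.2.2))).card := by
    rw [← card_univ]
    exact (card_le_card hcov).trans card_biUnion_le
  have h2 : Fintype.card (I → U) * (Fintype.card U)^4 ≤
      ∑ z ∈ D, Fintype.card (I → U) * N.card := by
    calc Fintype.card (I → U) * (Fintype.card U)^4 ≤ (∑ z ∈ D,
        (univ.filter (fun s : I → U => Q (s z.1) (s z.2.1) (s z.2.2.1) (s z.2.2.2))).card) *
          (Fintype.card U)^4 := Nat.mul_le_mul_right _ h1
      _ = ∑ z ∈ D, (univ.filter (fun s : I → U =>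
            Q (s z.1) (s z.2.1) (s z.2.2.1) (s z.2.2.2))).card * (Fintype.card U)^4 := by
          rw [sum_mul]
      _ ≤ _ := by
          apply sum_le_sum
          intro z hz
          rw [hD, mem_filter] at hz
          obtain ⟨_, a1, a2, a3, a4, a5, a6⟩ := hz
          exact key _ _ _ _ a1 a2 a3 a4 a5 a6
  have h3 : D.card ≤ (Fintype.card I)^4 := by
    calc D.card ≤ (univ : Finset (I × I × I × I)).card := card_le_card (filter_subset _ _)
      _ = (Fintype.card I)^4 := by
        rw [card_univ]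
        simp only [Fintype.card_prod]
        ring
  rw [sum_const, smul_eq_mul] at h2
  have hpos : 0 < Fintype.card (I → U) := by
    rw [Fintype.card_pi]
    apply prod_pos
    intro _ _
    exact hUpos
  have h4 : Fintype.card (I → U) * (Fintype.card U)^4 ≤
      Fintype.card (I → U) * ((Fintype.card I)^4 * N.card) := by
    calc _ ≤ _ := h2
      _ ≤ (Fintype.card I)^4 * (Fintype.card (I → U) * N.card) := Nat.mul_le_mul_right _ h3
      _ = _ := by ring
  have h5 := Nat.le_of_mul_le_mul_left h4 hpos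
  omega

variable {V : Type*} [Fintype V] [DecidableEq V]

/-- `Lam` is the load of the closed neighbourhood. -/
def Lam (G : SimpleGraph V) (X : V → ℕ) (v : V) : ℕ := ∑ u ∈ cn G v, X u

theorem bil_symm (G : SimpleGraph V) (f g : V → ℤ) :
    ∑ v, f v * ∑ u ∈ cn G v, g u = ∑ v, g v * ∑ u ∈ cn G v, f u := by
  simp only [mul_sum]
  rw [sum_comm' (s' := fun v => cn G v) (t' := univ)]
  · apply sum_congr rfl
    intro v _
    apply sum_congr rfl
    intro u _
    ring
  · intro x y
    rw [mem_cn_comm]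
    exact ⟨fun h => ⟨h.2, mem_univ _⟩, fun h => ⟨mem_univ _, h.1⟩⟩

variable {U : Type*} [Fintype U] [DecidableEq U]

/-- Load function of a system of connected sets. -/
def XP (P : U × U → Finset V) (v : V) : ℕ := ∑ p : U × U, if v ∈ P p then 1 else 0

/-- Energy of a system. -/
def FP (G : SimpleGraph V) (P : U × U → Finset V) : ℕ := ∑ v, XP P v * Lam G (XP P) v

/-- Valid systems. -/
def Valid (G : SimpleGraph V) (π : U → V) (P : U × U → Finset V) : Prop :=
  ∀ p, Conn G (P p) ∧ π p.1 ∈ P p ∧ π p.2 ∈ P p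

theorem exists_min (G : SimpleGraph V) (hG : Conn G univ) (π : U → V) :
    ∃ P : U × U → Finset V, Valid G π P ∧ ∀ P', Valid G π P' → FP G P ≤ FP G P' := by
  have hne : {k | ∃ P : U × U → Finset V, Valid G π P ∧ FP G P = k}.Nonempty :=
    ⟨_, fun _ => univ, fun p => ⟨hG, mem_univ _, mem_univ _⟩, rfl⟩
  obtain ⟨P, hP, he⟩ := Nat.sInf_mem hne
  refine ⟨P, hP, ?_⟩
  intro P' hP'
  rw [he]
  exact Nat.sInf_le ⟨P', hP', rfl⟩

theorem exchange (G : SimpleGraph V) (π : U → V) (P : U × U → Finset V)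
    (hP : Valid G π P) (hmin : ∀ P', Valid G π P' → FP G P ≤ FP G P') (p : U × U)
    (A : Finset V) (hA : Conn G A) (h1 : π p.1 ∈ A) (h2 : π p.2 ∈ A) :
    ∑ v ∈ P p, Lam G (XP P) v ≤ ∑ v ∈ A, Lam G (XP P) v + (Fintype.card V)^2 := by
  set P' : U × U → Finset V := Function.update P p A with hP'
  have hval : Valid G π P' := by
    intro q
    by_cases hq : q = p
    · subst hq
      rw [hP', Function.update_self]
      exact ⟨hA, h1, h2⟩
    · rw [hP', Function.update_of_ne hq]
      exact hP q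
  have hle := hmin P' hval
  set x : V → ℤ := fun v => (XP P v : ℤ) with hx
  set y : V → ℤ := fun v => (if v ∈ A then 1 else 0) - (if v ∈ P p then 1 else 0) with hy
  have hX' : ∀ v, (XP P' v : ℤ) = x v + y v := by
    intro v
    simp only [hx, hy, XP]
    push_cast
    rw [← add_sum_erase univ (fun q => if v ∈ P' q then (1:ℤ) else 0) (mem_univ p),
      ← add_sum_erase univ (fun q => if v ∈ P q then (1:ℤ) else 0) (mem_univ p)]
    have e : ∑ q ∈ univ.erase p, (if v ∈ P' q then (1:ℤ) else 0) =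
        ∑ q ∈ univ.erase p, (if v ∈ P q then (1:ℤ) else 0) := by
      apply sum_congr rfl
      intro q hq
      rw [hP', Function.update_of_ne (ne_of_mem_erase hq)]
    rw [e, hP', Function.update_self]
    ring
  have hF : (FP G P : ℤ) = ∑ v, x v * ∑ u ∈ cn G v, x u := by
    simp only [FP, Lam, hx]
    push_cast
    rfl
  have hF' : (FP G P' : ℤ) = ∑ v, (x v + y v) * ∑ u ∈ cn G v, (x u + y u) := by
    simp only [FP, Lam]
    push_cast
    apply sum_congr rfl
    intro v _
    rw [hX' v]
    congr 1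
    apply sum_congr rfl
    intro u _
    exact hX' u
  have hexp : ∑ v, (x v + y v) * ∑ u ∈ cn G v, (x u + y u) =
      ∑ v, x v * ∑ u ∈ cn G v, x u + 2 * ∑ v, y v * ∑ u ∈ cn G v, x u +
        ∑ v, y v * ∑ u ∈ cn G v, y u := by
    have hs := bil_symm G x y
    have : ∑ v, (x v + y v) * ∑ u ∈ cn G v, (x u + y u) =
      ∑ v, x v * ∑ u ∈ cn G v, x u + ∑ v, x v * ∑ u ∈ cn G v, y u +
        (∑ v, y v * ∑ u ∈ cn G v, x u + ∑ v, y v * ∑ u ∈ cn G v, y u) := by
      have e : ∀ v, (x v + y v) * ∑ u ∈ cn G v, (x u + y u) =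
          x v * ∑ u ∈ cn G v, x u + x v * ∑ u ∈ cn G v, y u +
          (y v * ∑ u ∈ cn G v, x u + y v * ∑ u ∈ cn G v, y u) := by
        intro v
        rw [sum_add_distrib]
        ring
      rw [sum_congr rfl (fun v _ => e v)]
      simp only [sum_add_distrib]
    rw [this, hs]
    ring
  have hq : ∑ v, y v * ∑ u ∈ cn G v, y u ≤ ((Fintype.card V)^2 : ℕ) := by
    have hy1 : ∀ v, |y v| ≤ 1 := by
      intro v
      simp only [hy]
      split_ifs <;> simp
    calc ∑ v, y v * ∑ u ∈ cn G v, y u ≤ ∑ v : V, |y v * ∑ u ∈ cn G v, y u| :=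
          sum_le_sum (fun v _ => le_abs_self _)
      _ ≤ ∑ v : V, ((Fintype.card V : ℕ) : ℤ) := by
          apply sum_le_sum
          intro v _
          rw [abs_mul]
          have e1 : |∑ u ∈ cn G v, y u| ≤ ((Fintype.card V : ℕ) : ℤ) := by
            calc |∑ u ∈ cn G v, y u| ≤ ∑ u ∈ cn G v, |y u| := abs_sum_le_sum_abs _ _
              _ ≤ ∑ u ∈ cn G v, 1 := sum_le_sum (fun u _ => hy1 u)
              _ = ((cn G v).card : ℤ) := by simp
              _ ≤ _ := by
                have := card_le_univ (cn G v)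
                exact_mod_cast this
          calc |y v| * |∑ u ∈ cn G v, y u| ≤ 1 * ((Fintype.card V : ℕ) : ℤ) :=
                mul_le_mul (hy1 v) e1 (abs_nonneg _) (by norm_num)
            _ = _ := one_mul _
      _ = ((Fintype.card V)^2 : ℕ) := by
          rw [sum_const, card_univ]
          push_cast
          simp only [nsmul_eq_mul]
          ring
  have hlin : ∑ v, y v * ∑ u ∈ cn G v, x u =
      ∑ v ∈ A, (Lam G (XP P) v : ℤ) - ∑ v ∈ P p, (Lam G (XP P) v : ℤ) := by
    have e0 : ∀ v, ∑ u ∈ cn G v, x u = (Lam G (XP P) v : ℤ) := by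
      intro v
      simp only [Lam, hx]
      push_cast
      rfl
    simp only [e0, hy, sub_mul, sum_sub_distrib, ite_mul, one_mul, zero_mul]
    rw [← sum_filter, ← sum_filter]
    simp
  have hle' : (FP G P : ℤ) ≤ FP G P' := by exact_mod_cast hle
  rw [hF', hexp, ← hF, hlin] at hle'
  have hfin : (∑ v ∈ P p, (Lam G (XP P) v : ℤ)) ≤ ∑ v ∈ A, (Lam G (XP P) v : ℤ) +
      ((Fintype.card V)^2 : ℕ) := by
    have hc : (0:ℤ) ≤ ((Fintype.card V)^2 : ℕ) := by positivity
    linarith
  exact_mod_cast hfin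

theorem FP_eq (G : SimpleGraph V) (P : U × U → Finset V) :
    FP G P = ∑ p, ∑ v ∈ P p, Lam G (XP P) v := by
  rw [FP]
  have : ∀ v, XP P v * Lam G (XP P) v = ∑ p, if v ∈ P p then Lam G (XP P) v else 0 := by
    intro v
    conv_lhs => rw [XP, sum_mul]
    apply sum_congr rfl
    intro p _
    split_ifs <;> simp
  simp only [this]
  rw [sum_comm]
  apply sum_congr rfl
  intro p _
  rw [← sum_filter]
  simp

theorem touch_le (G : SimpleGraph V) (P : U × U → Finset V) :
    (univ.filter (fun q : U × U × U × U =>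
      ¬ NT G (P (q.1, q.2.1)) (P (q.2.2.1, q.2.2.2)))).card ≤ FP G P := by
  rw [FP_eq]
  have e1 : ∀ p : U × U, ∑ v ∈ P p, Lam G (XP P) v =
      ∑ p' : U × U, ∑ v ∈ P p, ∑ u ∈ cn G v, if u ∈ P p' then 1 else 0 := by
    intro p
    rw [sum_comm]
    apply sum_congr rfl
    intro v _
    rw [Lam, sum_comm]
    rfl
  simp only [e1]
  have e2 : (univ.filter (fun q : U × U × U × U =>
      ¬ NT G (P (q.1, q.2.1)) (P (q.2.2.1, q.2.2.2)))).card =
      (univ.filter (fun q : (U × U) × (U × U) => ¬ NT G (P q.1) (P q.2))).card := by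
    apply card_bij (fun q _ => ((q.1, q.2.1), (q.2.2.1, q.2.2.2)))
    · intro q hq
      rw [mem_filter] at hq ⊢
      exact ⟨mem_univ _, hq.2⟩
    · rintro ⟨a, b, c, d⟩ _ ⟨a', b', c', d'⟩ _ h
      simp only [Prod.mk.injEq] at h ⊢
      tauto
    · rintro ⟨⟨a, b⟩, ⟨c, d⟩⟩ h
      rw [mem_filter] at h
      refine ⟨(a, b, c, d), ?_, rfl⟩
      rw [mem_filter]
      exact ⟨mem_univ _, h.2⟩
  rw [e2, card_filter, Fintype.sum_prod_type]
  apply sum_le_sum
  intro p _
  apply sum_le_sum
  intro p' _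
  by_cases h : NT G (P p) (P p')
  · rw [if_neg (not_not.2 h)]
    exact Nat.zero_le _
  · rw [if_pos h]
    rw [NT] at h
    push Not at h
    obtain ⟨x, hx, y, hy, hxy⟩ := h
    have hyx : y ∈ cn G x := by
      rw [mem_cn]
      by_cases hh : x = y
      · exact Or.inl hh.symm
      · exact Or.inr (hxy hh)
    calc 1 = (if y ∈ P p' then 1 else 0) := by rw [if_pos hy]
      _ ≤ ∑ u ∈ cn G x, (if u ∈ P p' then 1 else 0) :=
          single_le_sum (f := fun u => if u ∈ P p' then 1 else 0)
            (fun _ _ => Nat.zero_le _) hyx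
      _ ≤ _ := single_le_sum (f := fun v => ∑ u ∈ cn G v, if u ∈ P p' then 1 else 0)
            (fun _ _ => Nat.zero_le _) hx

theorem touch_ge {h : ℕ} (H : SimpleGraph (Fin h)) (G : SimpleGraph V)
    (hfree : HFree H G) (π : U → V) (P : U × U → Finset V) (hP : Valid G π P) :
    (Fintype.card U)^4 ≤ (h + h * h)^4 * (univ.filter (fun q : U × U × U × U =>
      ¬ NT G (P (q.1, q.2.1)) (P (q.2.2.1, q.2.2.2)))).card := by
  by_contra hcon
  push Not at hcon
  have hI : Fintype.card (Fin h ⊕ (Fin h × Fin h)) = h + h * h := by simp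
  rw [← hI] at hcon
  obtain ⟨s, hs⟩ := sampling (I := Fin h ⊕ (Fin h × Fin h))
    (fun a b c d => ¬ NT G (P (a, b)) (P (c, d))) hcon
  simp only [not_not] at hs
  apply model_lemma H G
    (fun a => univ.biUnion (fun b => P (s (Sum.inl a), s (Sum.inr (a, b)))))
    (fun a b => P (s (Sum.inr (a, b)), s (Sum.inr (b, a)))) _ _ _ _ _ _ _ hfree
  · intro a
    apply conn_biUnion _ _ (π (s (Sum.inl a))) ⟨a, mem_univ _⟩
    · intro b _
      exact (hP _).1
    · intro b _
      exact (hP (s (Sum.inl a), s (Sum.inr (a, b)))).2.1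
  · intro a b hab x hx y hy
    rw [mem_biUnion] at hx hy
    obtain ⟨c, _, hx⟩ := hx
    obtain ⟨c', _, hy⟩ := hy
    refine hs (Sum.inl a) (Sum.inr (a, c)) (Sum.inl b) (Sum.inr (b, c')) ?_ ?_ ?_ ?_ ?_ ?_ x hx y hy
    all_goals simp [hab]
  · intro a b _
    exact (hP _).1
  · intro a b _
    refine ⟨π (s (Sum.inr (a, b))), (hP (s (Sum.inr (a, b)), s (Sum.inr (b, a)))).2.1,
      π (s (Sum.inr (a, b))), ?_, Or.inl rfl⟩
    rw [mem_biUnion]
    exact ⟨b, mem_univ _, (hP (s (Sum.inl a), s (Sum.inr (a, b)))).2.2⟩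
  · intro a b _
    refine ⟨π (s (Sum.inr (b, a))), (hP (s (Sum.inr (a, b)), s (Sum.inr (b, a)))).2.2,
      π (s (Sum.inr (b, a))), ?_, Or.inl rfl⟩
    rw [mem_biUnion]
    exact ⟨a, mem_univ _, (hP (s (Sum.inl b), s (Sum.inr (b, a)))).2.2⟩
  · intro a b c hab hca hcb x hx y hy
    rw [mem_biUnion] at hy
    obtain ⟨c', _, hy⟩ := hy
    refine hs (Sum.inr (a, b)) (Sum.inr (b, a)) (Sum.inl c) (Sum.inr (c, c')) ?_ ?_ ?_ ?_ ?_ ?_
      x hx y hy
    · simp [hab.ne]
    · simp
    · simp [hca.symm]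
    · simp
    · simp [hcb.symm]
    · simp
  · intro a b c d hab hcd hne
    apply hs
    · simp [hab.ne]
    · simp only [ne_eq, Sum.inr.injEq, Prod.mk.injEq, not_and]
      intro h1 h2
      rcases hne with h | h
      · exact h h1
      · exact h h2
    · simp only [ne_eq, Sum.inr.injEq, Prod.mk.injEq, not_and]
      intro h1 h2
      subst h1; subst h2
      exact absurd (hab.trans hcd) (lt_irrefl _)
    · simp only [ne_eq, Sum.inr.injEq, Prod.mk.injEq, not_and]
      intro h1 h2
      subst h1; subst h2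
      exact absurd (hab.trans hcd) (lt_irrefl _)
    · simp only [ne_eq, Sum.inr.injEq, Prod.mk.injEq, not_and]
      intro h1 h2
      rcases hne with h | h
      · exact h h2
      · exact h h1
    · simp [hcd.ne]

end

end Run7.h390
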