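import Pool.Agent.Run7.h390.Far

set_option autoImplicit false
set_option linter.unusedSectionVars false
set_option linter.unnecessarySimpa false

namespace Run7.h390

open Finset Classical

noncomputable section

variable {V : Type*} [Fintype V] [DecidableEq V]

/-- A stage of the construction. -/
structure St (V : Type*) where
  SL : Finset V
  YL : Finset V
  L : Finset V
  SA : Finset V
  YA : Finset V
  A : Finset V

namespace Ctx

variable (K : Ctx V)

/-- Budget of centers (in units of the square root). -/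
def qb (K : Ctx V) : ℕ → ℝ
  | 0 => K.C
  | (i+1) => 3 * K.qb i + 2 * K.B

theorem qb_nonneg (i : ℕ) : 0 ≤ K.qb i := by
  induction i with
  | zero => exact Nat.cast_nonneg _
  | succ i ih =>
    have := K.B_pos
    rw [qb]
    linarith

/-- Invariant of a stage. -/
structure Inv (i : ℕ) (s : St V) : Prop where
  bigL : Big K.G K.w s.SL s.L
  covL : Cov K.G (i + 2) s.YL s.SL
  mostL : K.E * (univ \ s.L).card ≤ Fintype.card V
  bigA : Big K.G K.w s.SA s.A
  covA : Cov K.G (i + 2) s.YA s.SA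
  mostA : K.E * (univ \ s.A).card ≤ Fintype.card V
  sub : s.SL ⊆ s.SA
  cardL : (s.YL.card : ℝ) ≤ K.qb i * K.sq
  cardA : (s.YA.card : ℝ) ≤ K.qb i * K.sq
  light : ∀ v ∈ s.L, K.Λ v ≤ K.d

/-- Relation between consecutive stages. -/
def Rel (s s' : St V) (R : Finset V) : Prop :=
  Conn K.G R ∧ R ⊆ s.A ∧ s'.L ⊆ s.L ∧ s'.A ⊆ s.A ∧ s'.A ⊆ s'.L ∧
  K.E * (univ.filter (fun v => ¬ (v ∈ s.L ∧ 11 * K.d < ds K.G K.Λ s.L R v ∧
    ds K.G K.Λ s.L R v < 14 * K.d))).card ≤ 2 * Fintype.card V ∧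
  (∀ v ∈ s'.L, 2 * K.d < ds K.G K.Λ s.L R v) ∧
  (∀ v ∈ s'.A, 10 * K.d < ds K.G K.Λ s.L R v) ∧
  (∀ x ∈ s'.L, ∀ y ∈ s.L, K.G.Adj x y → y ∉ s'.L → ds K.G K.Λ s.L R y < 4 * K.d)

theorem exists_stage_zero (hq : K.qb 0 ≤ K.D) : ∃ s : St V, K.Inv 0 s := by
  obtain ⟨U, hUS, hUd, hUc⟩ := greedy (cn K.G) (fun _ => 0)
    (univ.filter (fun v => K.d < K.Λ v)).card (univ.filter (fun v => K.d < K.Λ v)) le_rfl
    (fun u _ => ⟨u, self_mem_cn K.G u⟩)
  have hcard : (U.card : ℝ) ≤ K.C * K.sq := by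
    have h1 : U.card * K.d ≤ ∑ v, K.X v := by
      calc U.card * K.d = ∑ u ∈ U, K.d := by rw [sum_const, smul_eq_mul]
        _ ≤ ∑ u ∈ U, ∑ v ∈ cn K.G u, K.X v := by
            apply sum_le_sum
            intro u hu
            exact (mem_filter.1 (hUS hu)).2.le
        _ ≤ _ := sum_disj_le U (cn K.G) K.X univ hUd (fun _ _ => subset_univ _)
    have h2 := sumX_le K.G K.X K.C K.d K.hC K.hF
    have h3 : (U.card : ℝ) * K.d ≤ K.C * K.sq * K.d := by
      calc (U.card : ℝ) * K.d = ((U.card * K.d : ℕ) : ℝ) := by push_cast; ring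
        _ ≤ ((∑ v, K.X v : ℕ) : ℝ) := by exact_mod_cast h1
        _ ≤ _ := h2
    have hdpos : (0:ℝ) < K.d := by exact_mod_cast K.hd
    exact le_of_mul_le_mul_right h3 hdpos
  have hcov : Cov K.G 2 U (univ.filter (fun v => K.d < K.Λ v)) := by
    intro u hu
    obtain ⟨u', hu', _, v, hv1, hv2⟩ := hUc u hu
    exact ⟨u', hu', near_two hv2 hv1⟩
  have hs := K.sq_pos
  obtain ⟨β, hβ, hE⟩ := K.big_of (hcard.trans (mul_le_mul_of_nonneg_right hq hs.le))
    (hcov.mono K.hr (Finset.Subset.refl _))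
  refine ⟨⟨_, U, β, _, U, β⟩, ⟨hβ, hcov, hE, hβ, hcov, hE, Finset.Subset.refl _, hcard, hcard, ?_⟩⟩
  intro v hv
  by_contra h
  apply hβ.2.1 v hv
  rw [mem_filter]
  exact ⟨mem_univ _, by omega⟩

/-- Atypical vertices. -/
def bad (f : V → ℕ) (L : Finset V) (k : ℕ) : Finset V :=
  univ.filter (fun v => ¬ (v ∈ L ∧ k * K.d < f v + K.d ∧ f v < (k + 1) * K.d))

theorem mem_of_not_bad {f : V → ℕ} {L : Finset V} {k : ℕ} {v : V} (h : v ∉ K.bad f L k) :
    v ∈ L ∧ k * K.d < f v + K.d ∧ f v < (k + 1) * K.d := by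
  by_contra hcon
  exact h (mem_filter.2 ⟨mem_univ _, hcon⟩)

/-- A small family of small sets misses a vertex. -/
theorem miss {A : Finset V} {k : ℕ} (h : K.E * A.card ≤ k * Fintype.card V) (hk : k < K.E) :
    ∃ v, v ∉ A := by
  by_contra hcon
  push Not at hcon
  have : A = univ := by
    ext v
    simp [hcon v]
  rw [this, card_univ] at h
  have h2 := Nat.le_of_mul_le_mul_right h K.hn
  omega

theorem mul_union {A B : Finset V} {k l : ℕ} (hA : K.E * A.card ≤ k * Fintype.card V)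
    (hB : K.E * B.card ≤ l * Fintype.card V) :
    K.E * (A ∪ B).card ≤ (k + l) * Fintype.card V := by
  calc K.E * (A ∪ B).card ≤ K.E * (A.card + B.card) := Nat.mul_le_mul_left _ (card_union_le _ _)
    _ = K.E * A.card + K.E * B.card := by ring
    _ ≤ k * Fintype.card V + l * Fintype.card V := Nat.add_le_add hA hB
    _ = _ := by ring

theorem lip_ds {L R : Finset V} (hL : Conn K.G L) (hR : ∃ r ∈ L, r ∈ R) :
    K.Lip (ds K.G K.Λ L R) L := fun _ hu _ hv h => ds_lip hL hR hu hv h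

theorem dd_le_ds {L : Finset V} (hL : Conn K.G L) {x v : V} (hx : x ∈ L) (hv : v ∈ L) :
    K.dd v x ≤ ds K.G K.Λ L {x} v := by
  obtain ⟨A, _, hA, hvA, ⟨r, hrA, hr⟩, he⟩ := ds_attain (Λ := K.Λ) hL
    ⟨x, hx, mem_singleton_self x⟩ hv
  rw [mem_singleton] at hr
  subst hr
  rw [he]
  exact dh_le hA hvA hrA

theorem exists_R {i : ℕ} {s : St V} (hs : K.Inv i s) (hr : i + 3 ≤ K.r)
    (hq : K.qb (i+1) ≤ K.D) (hE5 : 5 ≤ K.E) :
    ∃ R : Finset V, Conn K.G R ∧ R ⊆ s.A ∧ ∃ k, 12 ≤ k ∧ k ≤ 13 ∧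
      K.E * (K.bad (ds K.G K.Λ s.L R) s.L k).card ≤ 2 * Fintype.card V := by
  have hAL : s.A ⊆ s.L := big_mono K.hw hs.bigL hs.bigA hs.sub
  have hsq := K.sq_pos
  have hbudget : (s.YL.card : ℝ) + K.B * K.sq ≤ K.D * K.sq := by
    have h1 := hs.cardL
    have h2 := K.qb_nonneg i
    have h3 := K.B_pos
    rw [qb] at hq
    have h4 : (K.qb i + K.B) * K.sq ≤ K.D * K.sq := by
      apply mul_le_mul_of_nonneg_right _ hsq.le
      linarith
    linarith
  have hconc : ∀ R : Finset V, R.Nonempty → R ⊆ s.A → ∃ k,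
      K.E * (K.bad (ds K.G K.Λ s.L R) s.L k).card ≤ 2 * Fintype.card V := by
    intro R hne hRA
    obtain ⟨x, hx⟩ := hne
    exact K.conc (ρ := i + 2) (by omega) (by omega)
      (K.lip_ds hs.bigL.1 ⟨x, hAL (hRA hx), hx⟩) hs.bigL hs.covL hbudget
  set Q := s.A.powerset.filter (fun R => Conn K.G R ∧ ∃ k, 12 ≤ k ∧
    K.E * (K.bad (ds K.G K.Λ s.L R) s.L k).card ≤ 2 * Fintype.card V) with hQ
  have hQne : Q.Nonempty := by
    obtain ⟨x, hx⟩ := hs.bigA.1.1
    refine ⟨{x}, ?_⟩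
    rw [hQ, mem_filter, mem_powerset]
    refine ⟨by simpa using hx, conn_singleton _ _, ?_⟩
    obtain ⟨k, hk⟩ := hconc {x} (singleton_nonempty x) (by simpa using hx)
    refine ⟨k, ?_, hk⟩
    by_contra hlt
    have hfar := K.far x
    rw [← one_mul (Fintype.card V)] at hfar
    obtain ⟨v, hv⟩ := K.miss (K.mul_union hk hfar) (by omega)
    rw [mem_union, not_or] at hv
    obtain ⟨hvL, _, h2⟩ := K.mem_of_not_bad hv.1
    have h3 := K.dd_le_ds hs.bigL.1 (hAL hx) hvL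
    have h4 : ¬ K.dd v x < 30 * K.d := by
      intro h
      exact hv.2 (mem_filter.2 ⟨mem_univ _, h⟩)
    have h5 : (k + 1) * K.d ≤ 12 * K.d := Nat.mul_le_mul_right _ (by omega)
    omega
  obtain ⟨R, hRQ, hmax⟩ := exists_max_image Q card hQne
  rw [hQ, mem_filter, mem_powerset] at hRQ
  obtain ⟨hRA, hR, k, hk12, hk⟩ := hRQ
  refine ⟨R, hR, hRA, k, hk12, ?_, hk⟩
  have hdpos := K.hd
  have hmost := hs.mostA
  rw [← one_mul (Fintype.card V)] at hmost
  have hRne : ∃ y ∈ s.A, y ∉ R := by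
    by_contra hcon
    push Not at hcon
    have hRA' : R = s.A := Finset.Subset.antisymm hRA hcon
    obtain ⟨v, hv⟩ := K.miss (K.mul_union hk hmost) (by omega)
    rw [mem_union, not_or] at hv
    obtain ⟨hvL, h1, _⟩ := K.mem_of_not_bad hv.1
    have hvA : v ∈ s.A := by
      by_contra h
      exact hv.2 (by simp [h])
    have h2 : ds K.G K.Λ s.L R v ≤ K.Λ v := ds_of_mem hvL (hRA'.symm ▸ hvA)
    have h3 := hs.light v hvL
    have h4 : 12 * K.d ≤ k * K.d := Nat.mul_le_mul_right _ hk12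
    omega
  obtain ⟨x, hxA, hxR, y, hyA, hyR, hxy⟩ := hs.bigA.1.exit (C := R) (by
    obtain ⟨x, hx⟩ := hR.1
    exact ⟨x, hRA hx, hx⟩) hRne
  have hR' : Conn K.G (insert y R) := hR.insert hxR hxy.symm
  have hR'A : insert y R ⊆ s.A := insert_subset hyA hRA
  obtain ⟨k', hk'⟩ := hconc (insert y R) hR'.1 hR'A
  have hk'lt : k' < 12 := by
    by_contra hge
    have hmem : insert y R ∈ Q := by
      rw [hQ, mem_filter, mem_powerset]
      exact ⟨hR'A, hR', k', by omega, hk'⟩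
    have := hmax _ hmem
    rw [card_insert_of_notMem hyR] at this
    omega
  obtain ⟨v, hv⟩ := K.miss (K.mul_union hk hk') (by omega)
  rw [mem_union, not_or] at hv
  obtain ⟨hvL, h1, _⟩ := K.mem_of_not_bad hv.1
  obtain ⟨_, _, h2⟩ := K.mem_of_not_bad hv.2
  have hff : ds K.G K.Λ s.L R v ≤ ds K.G K.Λ s.L (insert y R) v + K.d := by
    obtain ⟨A', hA'L, hA', hvA', ⟨r, hrA', hr⟩, he⟩ := ds_attain (Λ := K.Λ) (R := insert y R)
      hs.bigL.1 ⟨y, hAL hyA, mem_insert_self _ _⟩ hvL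
    rw [he]
    rcases mem_insert.1 hr with h | h
    · subst h
      have h3 : ds K.G K.Λ s.L R v ≤ ∑ z ∈ insert x A', K.Λ z :=
        ds_le (insert_subset (hAL hxA) hA'L) (hA'.insert hrA' hxy)
          (mem_insert_of_mem hvA') ⟨x, mem_insert_self _ _, hxR⟩
      have h4 := sum_insert_le' K.Λ A' x
      have h5 := hs.light x (hAL hxA)
      omega
    · have h3 : ds K.G K.Λ s.L R v ≤ ∑ z ∈ A', K.Λ z := ds_le hA'L hA' hvA' ⟨r, hrA', h⟩
      omega
  have h5 : (k' + 1) * K.d ≤ 12 * K.d := Nat.mul_le_mul_right _ (by omega)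
  by_contra hk14
  have h6 : 14 * K.d ≤ k * K.d := Nat.mul_le_mul_right _ (by omega)
  omega

theorem step {i : ℕ} {s : St V} (hs : K.Inv i s) (hr : i + 3 ≤ K.r)
    (hq : K.qb (i+1) ≤ K.D) (hE5 : 5 ≤ K.E) :
    ∃ s' : St V, K.Inv (i+1) s' ∧ ∃ R, K.Rel s s' R := by
  obtain ⟨R, hR, hRA, k, hk12, hk13, hk⟩ := K.exists_R hs hr hq hE5
  have hAL : s.A ⊆ s.L := big_mono K.hw hs.bigL hs.bigA hs.sub
  have hsq := K.sq_pos
  have hRL : ∃ r ∈ s.L, r ∈ R := by
    obtain ⟨x, hx⟩ := hR.1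
    exact ⟨x, hAL (hRA hx), hx⟩
  set f := ds K.G K.Λ s.L R with hf
  have hlip : K.Lip f s.L := K.lip_ds hs.bigL.1 hRL
  obtain ⟨Z, hZ, hcovZ⟩ := K.cuts (ρ := i + 2) (by omega) hlip hs.bigL.2.2.1 hs.covL
  obtain ⟨t, ht1, ht2, hZt⟩ := K.pick hZ (2 * K.d)
  obtain ⟨t', ht1', ht2', hZt'⟩ := K.pick hZ (10 * K.d)
  have hq0 := K.qb_nonneg i
  have hB0 := K.B_pos
  have hcL := hs.cardL
  have hcA := hs.cardA
  have hqe : K.qb (i+1) = 3 * K.qb i + 2 * K.B := rfl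
  have c1 : (((s.YL ∪ Z t).card : ℕ) : ℝ) ≤ s.YL.card + (Z t).card := by
    exact_mod_cast card_union_le _ _
  have c2 : (((s.YL ∪ Z t').card : ℕ) : ℝ) ≤ s.YL.card + (Z t').card := by
    exact_mod_cast card_union_le _ _
  have c3 : (((s.YA ∪ ((s.YL ∪ Z t) ∪ (s.YL ∪ Z t'))).card : ℕ) : ℝ) ≤ s.YA.card +
      (((s.YL ∪ Z t).card : ℕ) + ((s.YL ∪ Z t').card : ℕ)) := by
    have h1 := card_union_le s.YA ((s.YL ∪ Z t) ∪ (s.YL ∪ Z t'))
    have h2 := card_union_le (s.YL ∪ Z t) (s.YL ∪ Z t')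
    have h3 : (s.YA ∪ ((s.YL ∪ Z t) ∪ (s.YL ∪ Z t'))).card ≤ s.YA.card +
      ((s.YL ∪ Z t).card + (s.YL ∪ Z t').card) := by omega
    exact_mod_cast h3
  have cardL' : (((s.YL ∪ Z t).card : ℕ) : ℝ) ≤ K.qb (i+1) * K.sq := by
    rw [hqe]
    nlinarith
  have cardA' : (((s.YA ∪ ((s.YL ∪ Z t) ∪ (s.YL ∪ Z t'))).card : ℕ) : ℝ) ≤
      K.qb (i+1) * K.sq := by
    rw [hqe]
    nlinarith
  have hqD : K.qb (i+1) * K.sq ≤ K.D * K.sq := mul_le_mul_of_nonneg_right hq hsq.le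
  have covL' : Cov K.G (i + 1 + 2) (s.YL ∪ Z t) (s.SL ∪ K.lev f s.L t) := by
    have := hcovZ t
    exact this.mono (by omega) (Finset.Subset.refl _)
  have covL'' : Cov K.G (i + 1 + 2) (s.YL ∪ Z t') (s.SL ∪ K.lev f s.L t') := by
    have := hcovZ t'
    exact this.mono (by omega) (Finset.Subset.refl _)
  have covA' : Cov K.G (i + 1 + 2) (s.YA ∪ ((s.YL ∪ Z t) ∪ (s.YL ∪ Z t')))
      (s.SA ∪ ((s.SL ∪ K.lev f s.L t) ∪ (s.SL ∪ K.lev f s.L t'))) :=
    (hs.covA.mono (by omega) (Finset.Subset.refl _)).union (covL'.union covL'')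
  obtain ⟨L', hL', hEL'⟩ := K.big_of (cardL'.trans hqD)
    (covL'.mono (by omega) (Finset.Subset.refl _))
  obtain ⟨A', hA', hEA'⟩ := K.big_of (cardA'.trans hqD)
    (covA'.mono (by omega) (Finset.Subset.refl _))
  have hL'L : L' ⊆ s.L := big_mono K.hw hs.bigL hL' subset_union_left
  have hA'A : A' ⊆ s.A := big_mono K.hw hs.bigA hA' subset_union_left
  have hsubSL : s.SL ∪ K.lev f s.L t ⊆
      s.SA ∪ ((s.SL ∪ K.lev f s.L t) ∪ (s.SL ∪ K.lev f s.L t')) :=
    subset_union_left.trans subset_union_right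
  have hA'L' : A' ⊆ L' := big_mono K.hw hL' hA' hsubSL
  -- typical points
  have htyp : ∀ v, v ∉ K.bad f s.L k → 11 * K.d < f v ∧ f v < 14 * K.d := by
    intro v hv
    obtain ⟨_, h1, h2⟩ := K.mem_of_not_bad hv
    have h3 : 12 * K.d ≤ k * K.d := Nat.mul_le_mul_right _ hk12
    have h4 : (k + 1) * K.d ≤ 14 * K.d := Nat.mul_le_mul_right _ (by omega)
    omega
  have hmeet : ∀ β : Finset V, K.E * (univ \ β).card ≤ Fintype.card V →
      ∃ v ∈ β, 11 * K.d < f v := by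
    intro β hβ
    rw [← one_mul (Fintype.card V)] at hβ
    obtain ⟨v, hv⟩ := K.miss (K.mul_union hk hβ) (by omega)
    rw [mem_union, not_or] at hv
    refine ⟨v, ?_, (htyp v hv.1).1⟩
    by_contra h
    exact hv.2 (by simp [h])
  have hdpos := K.hd
  have hfarL : ∀ u ∈ L', t + K.Λ u ≤ f u := by
    rcases K.side hlip hL'.1 hL'L (fun x hx hx' => hL'.2.1 x hx (mem_union_right _ hx'))
      with h | h
    · exfalso
      obtain ⟨v, hv, hfv⟩ := hmeet L' hEL'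
      have := h v hv
      omega
    · exact h
  have hfarA : ∀ u ∈ A', t' + K.Λ u ≤ f u := by
    rcases K.side hlip hA'.1 (hA'A.trans hAL) (fun x hx hx' => hA'.2.1 x hx
      (mem_union_right _ (mem_union_right _ (mem_union_right _ hx')))) with h | h
    · exfalso
      obtain ⟨v, hv, hfv⟩ := hmeet A' hEA'
      have := h v hv
      omega
    · exact h
  refine ⟨⟨_, _, L', _, _, A'⟩, ⟨hL', covL', hEL', hA', covA', hEA', hsubSL, cardL', cardA',
    fun v hv => hs.light v (hL'L hv)⟩, R, hR, hRA, hL'L, hA'A, hA'L', ?_, ?_, ?_, ?_⟩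
  · refine le_trans (Nat.mul_le_mul_left _ (card_le_card ?_)) hk
    intro v hv
    by_contra hnb
    rw [mem_filter] at hv
    exact hv.2 ⟨(K.mem_of_not_bad hnb).1, htyp v hnb⟩
  · intro v hv
    have := hfarL v hv
    show 2 * K.d < f v
    omega
  · intro v hv
    have := hfarA v hv
    show 10 * K.d < f v
    omega
  · intro x hx y hy hxy hyL'
    show f y < 4 * K.d
    rcases hL'.2.2.1 x hx y hxy with h | h
    · exact absurd h hyL'
    · rcases mem_union.1 h with h | h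
      · exact absurd h (hs.bigL.2.1 y hy)
      · have h1 := (mem_filter.1 h).2.2
        have h2 := hs.light y hy
        omega

theorem exists_seq {α : Type*} (P : ℕ → α → Prop) (Q : ℕ → α → α → Prop) (h0 : ∃ a, P 0 a)
    (hs : ∀ i a, P i a → ∃ b, P (i+1) b ∧ Q i a b) :
    ∃ s : ℕ → α, (∀ i, P i (s i)) ∧ ∀ i, Q i (s i) (s (i+1)) := by
  choose! g hg using hs
  obtain ⟨a, ha⟩ := h0
  have hP : ∀ i, P i (Nat.rec a (fun i x => g i x) i) := by
    intro i
    induction i with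
    | zero => exact ha
    | succ i ih => exact (hg i _ ih).1
  exact ⟨fun i => Nat.rec a (fun i x => g i x) i, hP, fun i => (hg i _ (hP i)).2⟩

theorem stages (h : ℕ) (hr : h + 2 ≤ K.r) (hq : K.qb h ≤ K.D) (hE5 : 5 ≤ K.E) :
    ∃ (s : ℕ → St V) (R : ℕ → Finset V), (∀ i, i ≤ h → K.Inv i (s i)) ∧
      ∀ i, i < h → K.Rel (s i) (s (i+1)) (R i) := by
  have hmono : ∀ i, K.qb i ≤ K.qb (i+1) := by
    intro i
    have h1 := K.qb_nonneg i
    have h2 := K.B_pos
    have : K.qb (i+1) = 3 * K.qb i + 2 * K.B := rfl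
    linarith
  have hqi : ∀ i, i ≤ h → K.qb i ≤ K.D := by
    intro i hi
    exact (monotone_nat_of_le_succ hmono hi).trans hq
  obtain ⟨s, hs1, hs2⟩ := exists_seq (fun i (s : St V) => i ≤ h → K.Inv i s)
    (fun i s s' => i < h → ∃ R, K.Rel s s' R) (by
      obtain ⟨s, hs⟩ := K.exists_stage_zero (hqi 0 (Nat.zero_le _))
      exact ⟨s, fun _ => hs⟩) (by
      intro i a ha
      by_cases hi : i < h
      · obtain ⟨s', hs', R, hR⟩ := K.step (ha hi.le) (by omega) (hqi (i+1) hi) hE5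
        exact ⟨s', fun _ => hs', fun _ => ⟨R, hR⟩⟩
      · exact ⟨a, fun h' => absurd h' (by omega), fun h' => absurd h' hi⟩)
  choose! R hR using hs2
  exact ⟨s, R, hs1, hR⟩

end Ctx

end

end Run7.h390
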