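import Pool.Agent.Run7.h390.Cut

set_option autoImplicit false
set_option linter.unusedSectionVars false
set_option linter.unnecessarySimpa false

namespace Run7.h390

open Finset Classical

noncomputable section

variable {V : Type*} [Fintype V] [DecidableEq V]

/-- `β` is the heavy component outside `S`. -/
def Big (G : SimpleGraph V) (w : V → ℝ) (S β : Finset V) : Prop :=
  Conn G β ∧ (∀ x ∈ β, x ∉ S) ∧ (∀ x ∈ β, ∀ y, G.Adj x y → y ∈ β ∨ y ∈ S) ∧
    (∑ v, w v) / 2 < ∑ v ∈ β, w v

theorem meet_of_heavy {w : V → ℝ} (hw : ∀ v, 0 ≤ w v) {A B : Finset V}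
    (hA : (∑ v, w v) / 2 < ∑ v ∈ A, w v) (hB : (∑ v, w v) / 2 < ∑ v ∈ B, w v) :
    ∃ x ∈ A, x ∈ B := by
  by_contra hcon
  push Not at hcon
  have hd : Disjoint A B := by
    rw [Finset.disjoint_left]
    exact fun x hx => hcon x hx
  have h1 : ∑ v ∈ A, w v + ∑ v ∈ B, w v ≤ ∑ v, w v := by
    rw [← sum_union hd]
    exact sum_le_sum_of_subset_of_nonneg (subset_univ _) (fun v _ _ => hw v)
  linarith

theorem sub_of_big {G : SimpleGraph V} {w : V → ℝ} (hw : ∀ v, 0 ≤ w v) {S β T : Finset V}
    (hβ : Big G w S β) (hT : Conn G T) (hTS : ∀ x ∈ T, x ∉ S)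
    (hTw : (∑ v, w v) / 2 < ∑ v ∈ T, w v) : T ⊆ β := by
  apply hT.subset_of
  · exact meet_of_heavy hw hTw hβ.2.2.2
  · intro x _ hxβ y hy hxy
    rcases hβ.2.2.1 x hxβ y hxy with h | h
    · exact h
    · exact absurd h (hTS y hy)

theorem big_mono {G : SimpleGraph V} {w : V → ℝ} (hw : ∀ v, 0 ≤ w v) {S S' β β' : Finset V}
    (hβ : Big G w S β) (hβ' : Big G w S' β') (hS : S ⊆ S') : β' ⊆ β :=
  sub_of_big hw hβ hβ'.1 (fun x hx hxS => hβ'.2.1 x hx (hS hxS)) hβ'.2.2.2

/-- The conclusion of the theorem for one graph. -/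
def Good (G : SimpleGraph V) (c r : ℕ) : Prop :=
  ∀ w : V → ℝ, (∀ v, 0 ≤ w v) → ∃ S Y : Finset V,
    (Y.card : ℝ) ≤ c * Real.sqrt (Fintype.card V) ∧ Cov G r Y S ∧
      ∀ T : Finset V, (∀ x ∈ T, x ∉ S) → Conn G T → ∑ v ∈ T, w v ≤ (∑ v, w v) / 2

section transfer

variable {G : SimpleGraph V} {β : Finset V}

/-- The restriction of a graph to a finite vertex set. -/
def rs (G : SimpleGraph V) (β : Finset V) : SimpleGraph {x // x ∈ β} :=
  G.comap (fun x => (x : V))

/-- Embedding of the subtype. -/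
def em (β : Finset V) : {x // x ∈ β} ↪ V := Function.Embedding.subtype _

theorem conn_map {A : Finset {x // x ∈ β}} (h : Conn (rs G β) A) : Conn G (A.map (em β)) := by
  apply Conn.of_forall
  · exact h.1.map
  · intro C hm hcl
    have key : A ⊆ univ.filter (fun x : {x // x ∈ β} => (x : V) ∈ C) := by
      apply h.subset_of
      · obtain ⟨x, hx, hxC⟩ := hm
        rw [mem_map] at hx
        obtain ⟨a, ha, rfl⟩ := hx
        exact ⟨a, ha, mem_filter.2 ⟨mem_univ _, hxC⟩⟩
      · intro x hx hxC y hy hxy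
        rw [mem_filter] at hxC ⊢
        refine ⟨mem_univ _, ?_⟩
        exact hcl x (mem_map_of_mem (em β) hx) hxC.2 y (mem_map_of_mem (em β) hy) hxy
    intro x hx
    rw [mem_map] at hx
    obtain ⟨a, ha, rfl⟩ := hx
    exact (mem_filter.1 (key ha)).2

theorem conn_sub {T : Finset V} (hT : T ⊆ β) (h : Conn G T) :
    Conn (rs G β) (univ.filter (fun x : {x // x ∈ β} => (x : V) ∈ T)) := by
  apply Conn.of_forall
  · obtain ⟨t, ht⟩ := h.1
    exact ⟨⟨t, hT ht⟩, by simpa using ht⟩
  · intro C hm hcl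
    have key : T ⊆ C.map (em β) := by
      apply h.subset_of
      · obtain ⟨x, hx, hxC⟩ := hm
        exact ⟨x, (mem_filter.1 hx).2, mem_map_of_mem (em β) hxC⟩
      · intro x hx hxC y hy hxy
        rw [mem_map] at hxC
        obtain ⟨a, ha, rfl⟩ := hxC
        have := hcl a (mem_filter.2 ⟨mem_univ _, hx⟩) ha ⟨y, hT hy⟩
          (mem_filter.2 ⟨mem_univ _, hy⟩) hxy
        exact mem_map_of_mem (em β) this
    intro x hx
    have h1 := key (mem_filter.1 hx).2
    rw [mem_map] at h1
    obtain ⟨a, ha, hax⟩ := h1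
    have : a = x := Subtype.ext hax
    rwa [← this]

theorem near_of_rs {k : ℕ} {x y : {x // x ∈ β}} (h : Near (rs G β) k x y) :
    Near G k x y := by
  induction k generalizing y with
  | zero =>
    have : x = y := h
    rw [this]
    exact near_refl G 0 _
  | succ k ih =>
    obtain ⟨z, hz, hzy⟩ := h
    refine ⟨z, ih hz, ?_⟩
    rcases hzy with h | h
    · exact Or.inl (by rw [h])
    · exact Or.inr h

theorem hfree_rs {W : Type*} {H : SimpleGraph W} (h : HFree H G) : HFree H (rs G β) := by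
  rintro ⟨B, hB, hd, hadj⟩
  apply h
  refine ⟨fun a => (B a).map (em β), fun a => conn_map (hB a), ?_, ?_⟩
  · intro a b hab
    rw [disjoint_map]
    exact hd a b hab
  · intro a b hab
    rw [hadj a b hab]
    constructor
    · rintro ⟨x, hx, y, hy, hxy⟩
      exact ⟨x, mem_map_of_mem (em β) hx, y, mem_map_of_mem (em β) hy, hxy⟩
    · rintro ⟨x, hx, y, hy, hxy⟩
      rw [mem_map] at hx hy
      obtain ⟨a, ha, rfl⟩ := hx
      obtain ⟨b, hb, rfl⟩ := hy
      exact ⟨a, ha, b, hb, hxy⟩

end transfer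

theorem iso_lemma (G : SimpleGraph V) (w : V → ℝ) (hw : ∀ v, 0 ≤ w v) (c r : ℕ) (hc : 0 < c)
    (hctr : ∀ S Y : Finset V, (Y.card : ℝ) ≤ c * Real.sqrt (Fintype.card V) → Cov G r Y S →
      ∃ T : Finset V, (∀ x ∈ T, x ∉ S) ∧ Conn G T ∧ (∑ v, w v) / 2 < ∑ v ∈ T, w v)
    (IH : ∀ β : Finset V, β.card < Fintype.card V → Good (rs G β) c r)
    (S Y : Finset V) (hY : (Y.card : ℝ) ≤ c * Real.sqrt (Fintype.card V))
    (hcov : Cov G r Y S) :
    ∃ β, Big G w S β ∧ (c : ℝ) * ((univ \ β).card : ℝ) ≤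
      2 * Real.sqrt (Fintype.card V) * Y.card := by
  obtain ⟨T, hTS, hT, hTw⟩ := hctr S Y hY hcov
  obtain ⟨t, ht⟩ := hT.1
  have htD : t ∈ univ \ S := by simp [hTS t ht]
  have hTβ : T ⊆ comp G (univ \ S) t := subset_comp (by
    intro x hx
    simp [hTS x hx]) hT ht
  have hbig : Big G w S (comp G (univ \ S) t) := by
    refine ⟨conn_comp htD, ?_, ?_, ?_⟩
    · intro x hx
      have := comp_subset _ _ _ hx
      simpa using this
    · intro x hx y hxy
      by_cases hy : y ∈ S
      · exact Or.inr hy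
      · exact Or.inl (comp_closed htD hx (by simp [hy]) hxy)
    · exact hTw.trans_le (sum_le_sum_of_subset_of_nonneg hTβ (fun v _ _ => hw v))
  refine ⟨comp G (univ \ S) t, hbig, ?_⟩
  set β := comp G (univ \ S) t with hβ
  have hcardβ : (univ \ β).card + β.card = Fintype.card V := by
    rw [card_sdiff_add_card_eq_card (subset_univ _), card_univ]
  by_cases hlt : β.card < Fintype.card V
  · obtain ⟨S', Y', hY', hcov', hsep'⟩ := IH β hlt (fun x => w x) (fun x => hw x)
    have hcard' : Fintype.card {x // x ∈ β} = β.card := Fintype.card_coe β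
    rw [hcard'] at hY'
    have hgt : (c : ℝ) * Real.sqrt (Fintype.card V) < Y.card + c * Real.sqrt β.card := by
      by_contra hcon
      push Not at hcon
      have hcard2 : (((Y ∪ Y'.map (em β)).card : ℕ) : ℝ) ≤ c * Real.sqrt (Fintype.card V) := by
        have h1 := card_union_le Y (Y'.map (em β))
        rw [card_map] at h1
        have h2 : (((Y ∪ Y'.map (em β)).card : ℕ) : ℝ) ≤ Y.card + Y'.card := by
          exact_mod_cast h1
        linarith
      have hcov2 : Cov G r (Y ∪ Y'.map (em β)) (S ∪ S'.map (em β)) := by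
        apply hcov.union
        intro s hs
        rw [mem_map] at hs
        obtain ⟨a, ha, rfl⟩ := hs
        obtain ⟨y, hy, hn⟩ := hcov' a ha
        exact ⟨y, mem_map_of_mem (em β) hy, near_of_rs hn⟩
      obtain ⟨T2, hT2S, hT2, hT2w⟩ := hctr _ _ hcard2 hcov2
      have hT2β : T2 ⊆ β := sub_of_big hw hbig hT2
        (fun x hx hxS => hT2S x hx (mem_union_left _ hxS)) hT2w
      have h3 := hsep' (univ.filter (fun x : {x // x ∈ β} => (x : V) ∈ T2)) (by
        intro x hx hxS
        exact hT2S x (mem_filter.1 hx).2 (mem_union_right _ (mem_map_of_mem (em β) hxS)))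
        (conn_sub hT2β hT2)
      have h4 : ∑ v ∈ univ.filter (fun x : {x // x ∈ β} => (x : V) ∈ T2), w v =
          ∑ v ∈ T2, w v := by
        have e : (univ.filter (fun x : {x // x ∈ β} => (x : V) ∈ T2)).map (em β) = T2 := by
          ext v
          simp only [mem_map, mem_filter, mem_univ, true_and]
          constructor
          · rintro ⟨a, ha, rfl⟩
            exact ha
          · intro hv
            exact ⟨⟨v, hT2β hv⟩, hv, rfl⟩
        conv_rhs => rw [← e, sum_map]
        rfl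
      have h5 : ∑ v : {x // x ∈ β}, w v = ∑ v ∈ β, w v := by
        rw [← sum_attach β]
        rfl
      have h6 : ∑ v ∈ β, w v ≤ ∑ v, w v :=
        sum_le_sum_of_subset_of_nonneg (subset_univ _) (fun v _ _ => hw v)
      rw [h4, h5] at h3
      linarith
    set s := Real.sqrt (Fintype.card V) with hs
    set b := Real.sqrt β.card with hb
    have hs2 : s * s = Fintype.card V := Real.mul_self_sqrt (Nat.cast_nonneg _)
    have hb2 : b * b = β.card := Real.mul_self_sqrt (Nat.cast_nonneg _)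
    have hs0 : 0 ≤ s := Real.sqrt_nonneg _
    have hb0 : 0 ≤ b := Real.sqrt_nonneg _
    have hcpos : (0:ℝ) < c := by exact_mod_cast hc
    have hcc : ((univ \ β).card : ℝ) + β.card = Fintype.card V := by exact_mod_cast hcardβ
    have hYn : (0:ℝ) ≤ Y.card := Nat.cast_nonneg _
    have h7 : (c * s - Y.card) * (c * s - Y.card) ≤ (c * b) * (c * b) := by
      apply mul_self_le_mul_self
      · linarith
      · linarith
    have h8 : (c:ℝ) * (c * ((univ \ β).card : ℝ)) ≤ c * (2 * s * Y.card) := by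
      have e1 : ((univ \ β).card : ℝ) = s * s - b * b := by rw [hs2, hb2]; linarith
      rw [e1]
      nlinarith
    exact le_of_mul_le_mul_left h8 hcpos
  · have h0 : (univ \ β).card = 0 := by omega
    rw [h0]
    simp only [Nat.cast_zero, mul_zero]
    positivity

end

end Run7.h390
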